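import Pool.Agent.Helper80.RC.Union

/-!
# Spectrum theorem: from one scale to a set
-/

set_option autoImplicit false

open Finset Filter

namespace Pool.Agent.Helper80.SP

open Pool.Agent.Helper25.RC (below mem_below)
open Pool.Agent.Helper5.RC (sol blk mem_blk AA)
open Pool.Agent.Helper80.RC (chain_two card_below_eq_num sol_zero sum_sqrt card_below card_below')

/-- the block property at the scale `2 ^ j` -/
def GoodS (phi : Circle → ℂ) (F : Finset Circle) (D : ℝ) (s j : ℕ) (B : Finset ℕ) : Prop :=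
  B ⊆ range (2 ^ j) ∧ (∀ b ∈ B, 2 * b < 2 ^ j) ∧ ((sol (2 ^ j) B).card : ℝ) ≤ D * 2 ^ j ∧
    √((2 : ℝ) ^ j) ≤ 4 * #B ∧
    ∀ z ∈ F, ∀ y : ℕ, ‖∑ b ∈ B.filter (fun b => b < y), (z : ℂ) ^ (2 ^ j + b) -
      phi z * #(B.filter (fun b => b < y))‖ ≤ √((2 : ℝ) ^ j) / s

/-- the elements below `x`, by scales -/
theorem below_eq (B : ℕ → Finset ℕ) (x N : ℕ) (hN : x ≤ 2 ^ N) :
    below (AA (fun j => 2 ^ j) B) x =
      (range N).biUnion fun j =>
        ({b ∈ B j | b < x - 2 ^ j} : Finset ℕ).image fun b => 2 ^ j + b := by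
  ext n
  simp only [mem_filter, mem_below, mem_biUnion, mem_range, mem_image]
  constructor
  · rintro ⟨hx, j, hj⟩
    have h2 := mem_blk.1 hj
    simp only at h2
    have h3 : j < N := by
      by_contra hcon
      have : 2 ^ N ≤ 2 ^ j := Nat.pow_le_pow_right (by norm_num) (not_lt.1 hcon)
      omega
    exact ⟨j, h3, n - 2 ^ j, ⟨h2.2, by omega⟩, by omega⟩
  · rintro ⟨j, hj, b, ⟨hb, hbx⟩, rfl⟩
    refine ⟨by omega, j, ?_⟩
    refine mem_blk.2 ⟨Nat.le_add_right _ _, ?_⟩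
    simpa using hb

/-- sums over the elements below `x`, by scales -/
theorem sum_below (B : ℕ → Finset ℕ) (hB : ∀ j, B j ⊆ range (2 ^ j)) (x N : ℕ) (hN : x ≤ 2 ^ N)
    (f : ℕ → ℂ) :
    ∑ n ∈ below (AA (fun j => 2 ^ j) B) x, f n =
      ∑ j ∈ range N, ∑ b ∈ (B j).filter (fun b => b < x - 2 ^ j), f (2 ^ j + b) := by
  classical
  rw [below_eq B x N hN, sum_biUnion]
  · refine sum_congr rfl fun j _ => ?_
    rw [sum_image fun a _ b _ h => Nat.add_left_cancel h]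
  · intro i _ j _ hij
    rw [Function.onFun, disjoint_left]
    intro n hi hj
    rw [mem_image] at hi hj
    obtain ⟨b, hb, rfl⟩ := hi
    obtain ⟨b', hb', h2⟩ := hj
    rw [mem_filter] at hb hb'
    have h3 := mem_range.1 (hB i hb.1)
    have h4 := mem_range.1 (hB j hb'.1)
    rcases lt_or_gt_of_ne hij with h | h
    · have h5 : 2 ^ (i + 1) ≤ 2 ^ j := Nat.pow_le_pow_right (by norm_num) h
      rw [pow_succ] at h5
      omega
    · have h5 : 2 ^ (j + 1) ≤ 2 ^ i := Nat.pow_le_pow_right (by norm_num) h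
      rw [pow_succ] at h5
      omega

/-- the discrepancy is at most the sum of the discrepancies of the blocks -/
theorem disc_le (B : ℕ → Finset ℕ) (hB : ∀ j, B j ⊆ range (2 ^ j)) (x N : ℕ) (hN : x ≤ 2 ^ N)
    (w : ℂ) (z : ℂ) :
    ‖∑ n ∈ below (AA (fun j => 2 ^ j) B) x, z ^ n - w * #(below (AA (fun j => 2 ^ j) B) x)‖ ≤
      ∑ j ∈ range N, ‖∑ b ∈ (B j).filter (fun b => b < x - 2 ^ j), z ^ (2 ^ j + b) -
        w * #((B j).filter (fun b => b < x - 2 ^ j))‖ := by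
  rw [sum_below B hB x N hN (fun n => z ^ n), card_below' B hB x N hN]
  push_cast
  rw [mul_sum, ← sum_sub_distrib]
  exact norm_sum_le _ _

/-- a crude bound for the discrepancy of one block -/
theorem crude (B : Finset ℕ) (j : ℕ) (hB : B ⊆ range (2 ^ j)) (y : ℕ) (w : ℂ) (z : Circle) :
    ‖∑ b ∈ B.filter (fun b => b < y), (z : ℂ) ^ (2 ^ j + b) - w * #(B.filter (fun b => b < y))‖ ≤
      (1 + ‖w‖) * 2 ^ j := by
  have h0 : #B ≤ 2 ^ j := by simpa using card_le_card hB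
  have h2 : (#(B.filter (fun b => b < y)) : ℝ) ≤ 2 ^ j := by
    exact_mod_cast (card_filter_le _ _).trans h0
  have h1 : ‖∑ b ∈ B.filter (fun b => b < y), (z : ℂ) ^ (2 ^ j + b)‖ ≤ 2 ^ j := by
    refine (norm_sum_le _ _).trans ?_
    have h3 : ∀ b ∈ B.filter (fun b => b < y), ‖(z : ℂ) ^ (2 ^ j + b)‖ = 1 := by
      intro b _
      rw [norm_pow, Circle.norm_coe, one_pow]
    rw [sum_congr rfl h3, sum_const, nsmul_eq_mul, mul_one]
    exact h2
  refine (norm_sub_le _ _).trans ?_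
  rw [norm_mul, Complex.norm_natCast]
  have h4 := mul_le_mul_of_nonneg_left h2 (norm_nonneg w)
  linarith

/-- **the limit** -/
theorem tendsto_dist (B : ℕ → Finset ℕ) (hB : ∀ j, B j ⊆ range (2 ^ j)) (c : ℝ) (hc : 0 < c)
    (hcount : ∀ x : ℕ, 2 ≤ x → c * √x ≤ #(below (AA (fun j => 2 ^ j) B) x)) (w : ℂ) (z : Circle)
    (hd : ∀ ε : ℝ, 0 < ε → ∀ᶠ j in atTop, ∀ y : ℕ,
      ‖∑ b ∈ (B j).filter (fun b => b < y), (z : ℂ) ^ (2 ^ j + b) -
        w * #((B j).filter (fun b => b < y))‖ ≤ ε * √((2 : ℝ) ^ j)) :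
    Tendsto (fun x : ℕ => (∑ n ∈ below (AA (fun j => 2 ^ j) B) x, (z : ℂ) ^ n) /
      #(below (AA (fun j => 2 ^ j) B) x)) atTop (nhds w) := by
  rw [Metric.tendsto_atTop]
  intro δ hδ
  obtain ⟨ε, hε⟩ : ∃ ε, ε = c * δ / 48 := ⟨_, rfl⟩
  have hε0 : 0 < ε := by rw [hε]; positivity
  obtain ⟨j₁, hj₁⟩ := eventually_atTop.1 (hd ε hε0)
  obtain ⟨K, hK⟩ : ∃ K, K = ∑ j ∈ range j₁, (1 + ‖w‖) * (2 : ℝ) ^ j := ⟨_, rfl⟩
  have hK0 : 0 ≤ K := by
    rw [hK]
    exact sum_nonneg fun j _ => by positivity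
  -- the bound of the discrepancy
  have hmain : ∀ x : ℕ, 2 ≤ x → ‖∑ n ∈ below (AA (fun j => 2 ^ j) B) x, (z : ℂ) ^ n -
      w * #(below (AA (fun j => 2 ^ j) B) x)‖ ≤ K + 12 * ε * √x := by
    intro x hx
    obtain ⟨N, hN1, hN2⟩ : ∃ N : ℕ, x ≤ 2 ^ N ∧ 2 ^ N ≤ 2 * x := by
      refine ⟨Nat.log 2 x + 1, (Nat.lt_pow_succ_log_self (by norm_num) x).le, ?_⟩
      rw [pow_succ, mul_comm]
      exact Nat.mul_le_mul_left 2 (Nat.pow_log_le_self 2 (by omega))
    refine (disc_le B hB x N hN1 w z).trans ?_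
    have h1 : ∀ j ∈ range N, ‖∑ b ∈ (B j).filter (fun b => b < x - 2 ^ j), (z : ℂ) ^ (2 ^ j + b) -
        w * #((B j).filter (fun b => b < x - 2 ^ j))‖ ≤
        (if j < j₁ then (1 + ‖w‖) * (2 : ℝ) ^ j else 0) + ε * √((2 : ℝ) ^ j) := by
      intro j _
      by_cases hj : j < j₁
      · rw [if_pos hj]
        have h2 := crude (B j) j (hB j) (x - 2 ^ j) w z
        have h3 : 0 ≤ ε * √((2 : ℝ) ^ j) := by positivity
        linarith
      · rw [if_neg hj]
        have h2 := hj₁ j (not_lt.1 hj) (x - 2 ^ j)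
        linarith
    refine (sum_le_sum h1).trans ?_
    rw [sum_add_distrib, ← mul_sum]
    have h2 : ∑ j ∈ range N, (if j < j₁ then (1 + ‖w‖) * (2 : ℝ) ^ j else 0) ≤ K := by
      rw [hK, ← sum_filter]
      refine sum_le_sum_of_subset_of_nonneg ?_ fun j _ _ => by positivity
      intro j hj
      rw [mem_filter] at hj
      exact mem_range.2 hj.2
    have h3 : ∑ j ∈ range N, √((2 : ℝ) ^ j) ≤ 12 * √x := by
      refine (sum_sqrt N).trans ?_
      have h4 : √((2 : ℝ) ^ N) ≤ 2 * √x := by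
        have h5 : (2 : ℝ) ^ N ≤ 4 * x := by
          have : ((2 ^ N : ℕ) : ℝ) ≤ ((2 * x : ℕ) : ℝ) := by exact_mod_cast hN2
          push_cast at this
          have h6 : (0 : ℝ) ≤ x := Nat.cast_nonneg x
          linarith
        calc √((2 : ℝ) ^ N) ≤ √(4 * x) := Real.sqrt_le_sqrt h5
          _ = √4 * √x := Real.sqrt_mul (by norm_num) _
          _ = 2 * √x := by
            rw [show (4 : ℝ) = 2 ^ 2 by norm_num, Real.sqrt_sq (by norm_num)]
      linarith
    have h4 := mul_le_mul_of_nonneg_left h3 hε0.le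
    linarith
  -- the limit
  obtain ⟨X, hX⟩ : ∃ X : ℕ, 4 * K / (c * δ) ≤ X := exists_nat_ge _
  refine ⟨max 2 (X ^ 2 + 1), fun x hx => ?_⟩
  have hx2 : 2 ≤ x := (le_max_left _ _).trans hx
  have hxX : X ^ 2 + 1 ≤ x := (le_max_right _ _).trans hx
  have hx0 : (0 : ℝ) < x := by exact_mod_cast (by omega : 0 < x)
  have hsx : 0 < √(x : ℝ) := Real.sqrt_pos.2 hx0
  have hXs : (X : ℝ) ≤ √x := by
    apply Real.le_sqrt_of_sq_le
    exact_mod_cast (by omega : X ^ 2 ≤ x)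
  have hcnt := hcount x hx2
  have hpos : (0 : ℝ) < #(below (AA (fun j => 2 ^ j) B) x) := lt_of_lt_of_le (by positivity) hcnt
  have hne : ((#(below (AA (fun j => 2 ^ j) B) x) : ℕ) : ℂ) ≠ 0 := by
    have : (#(below (AA (fun j => 2 ^ j) B) x) : ℕ) ≠ 0 := by
      intro h0
      rw [h0, Nat.cast_zero] at hpos
      exact lt_irrefl _ hpos
    exact_mod_cast this
  rw [dist_eq_norm]
  have h1 : (∑ n ∈ below (AA (fun j => 2 ^ j) B) x, (z : ℂ) ^ n) /
      #(below (AA (fun j => 2 ^ j) B) x) - w =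
      (∑ n ∈ below (AA (fun j => 2 ^ j) B) x, (z : ℂ) ^ n -
      w * #(below (AA (fun j => 2 ^ j) B) x)) / #(below (AA (fun j => 2 ^ j) B) x) := by
    field_simp
  rw [h1, norm_div, Complex.norm_natCast, div_lt_iff₀ hpos]
  refine (hmain x hx2).trans_lt ?_
  have h2 : K ≤ c * δ / 4 * √x := by
    have h3 : 4 * K / (c * δ) ≤ √x := hX.trans hXs
    rw [div_le_iff₀ (by positivity)] at h3
    linarith
  have h3 : δ * (c * √x) ≤ δ * #(below (AA (fun j => 2 ^ j) B) x) :=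
    mul_le_mul_of_nonneg_left hcnt hδ.le
  have h4 : 12 * ε * √x = c * δ / 4 * √x := by rw [hε]; ring
  have h5 : 0 < c * δ * √x := by positivity
  linarith

/-- **SLOW + UNION** for exponential sums -/
theorem unionS [DecidableEq Circle] (phi : Circle → ℂ) (D : ℝ) (zs : ℕ → Circle)
    (hS : ∀ s : ℕ, ∀ᶠ j : ℕ in atTop, ∃ B : Finset ℕ, GoodS phi ((range s).image zs) D s j B) :
    ∃ (A : Set ℕ) (c C : ℝ), 0 < c ∧
      (∀ x : ℕ, 2 ≤ x → c * √x ≤ #(below A x)) ∧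
      (∀ x : ℕ, ∑ n ∈ range x, (Pool.Agent.Helper25.RC.rep A n : ℝ) ^ 2 ≤ C * x) ∧
      ∀ i : ℕ, Tendsto (fun x : ℕ => (∑ a ∈ below A x, (zs i : ℂ) ^ a) / #(below A x)) atTop
        (nhds (phi (zs i))) := by
  classical
  -- the slow function
  obtain ⟨P, hP⟩ : ∃ P : ℕ → ℕ → Prop, P = fun s j => ∃ B : Finset ℕ,
    GoodS phi ((range s).image zs) D s j B := ⟨_, rfl⟩
  have hPev : ∀ s, ∀ᶠ j in atTop, P s j := by rw [hP]; exact hS
  obtain ⟨σ, hσ⟩ : ∃ σ : ℕ → ℕ, σ = fun j => Nat.findGreatest (fun s => P s j) j := ⟨_, rfl⟩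
  obtain ⟨J, hJ⟩ := eventually_atTop.1 (hPev 0)
  have hσP : ∀ j, J ≤ j → P (σ j) j := by
    intro j hj
    rw [hσ]
    exact Nat.findGreatest_spec (P := fun s => P s j) (Nat.zero_le j) (hJ j hj)
  have hσlim : ∀ s, ∀ᶠ j in atTop, s ≤ σ j := by
    intro s
    filter_upwards [hPev s, eventually_ge_atTop s] with j h1 h2
    rw [hσ]
    exact Nat.le_findGreatest h2 h1
  -- the blocks
  have hex : ∀ j, ∃ B : Finset ℕ,
      (J ≤ j → GoodS phi ((range (σ j)).image zs) D (σ j) j B) ∧ (¬ J ≤ j → B = {0}) := by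
    intro j
    by_cases hj : J ≤ j
    · have h1 := hσP j hj
      rw [hP] at h1
      obtain ⟨B, hB⟩ := h1
      exact ⟨B, fun _ => hB, fun h => absurd hj h⟩
    · exact ⟨{0}, fun h => absurd h hj, fun _ => rfl⟩
  choose B hB1 hB2 using hex
  have hBr : ∀ j, B j ⊆ range (2 ^ j) := by
    intro j
    by_cases hj : J ≤ j
    · exact (hB1 j hj).1
    · rw [hB2 j hj, singleton_subset_iff, mem_range]
      positivity
  have hE : ∀ j, ((sol ((fun j => 2 ^ j) j) (B j)).card : ℝ) ≤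
      max D 1 * (((fun j => 2 ^ j) j : ℕ) : ℝ) := by
    intro j
    push_cast
    by_cases hj : J ≤ j
    · exact (hB1 j hj).2.2.1.trans (mul_le_mul_of_nonneg_right (le_max_left _ _) (by positivity))
    · rw [hB2 j hj]
      refine (sol_zero j).trans ?_
      have h1 : (1 : ℝ) ≤ 2 ^ j := one_le_pow₀ (by norm_num)
      have h2 : (1 : ℝ) ≤ max D 1 := le_max_right _ _
      nlinarith
  have hcard : ∀ j, (((fun j => 2 ^ j) j : ℕ) : ℝ) ≤ max 16 ((2 : ℝ) ^ J) * (#(B j) : ℝ) ^ 2 := by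
    intro j
    push_cast
    by_cases hj : J ≤ j
    · have h1 := (hB1 j hj).2.2.2.1
      have h2 : (2 : ℝ) ^ j ≤ 16 * (#(B j) : ℝ) ^ 2 := by
        have h3 := pow_le_pow_left₀ (Real.sqrt_nonneg _) h1 2
        rw [Real.sq_sqrt (by positivity)] at h3
        linarith
      exact h2.trans (mul_le_mul_of_nonneg_right (le_max_left _ _) (by positivity))
    · rw [hB2 j hj, card_singleton]
      have h1 : (2 : ℝ) ^ j ≤ 2 ^ J := pow_le_pow_right₀ (by norm_num) (by omega)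
      have h2 := le_max_right (16 : ℝ) ((2 : ℝ) ^ J)
      push_cast
      linarith
  -- the count
  obtain ⟨τ, hτ⟩ : ∃ τ, τ = max 16 ((2 : ℝ) ^ J) := ⟨_, rfl⟩
  have hτ0 : 0 < τ := by rw [hτ]; exact lt_of_lt_of_le (by norm_num) (le_max_left _ _)
  rw [← hτ] at hcard
  have hcount : ∀ x : ℕ, 2 ≤ x → 1 / √(4 * τ) * √x ≤ #(below (AA (fun j => 2 ^ j) B) x) := by
    intro x hx
    have h1 := Pool.Agent.Helper5.RC.many chain_two (Q := 2)
      (fun j => by show 2 ^ (j + 1) ≤ 2 * 2 ^ j; rw [pow_succ]; omega) hBr hcard x hx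
    rw [← card_below_eq_num] at h1
    have h2 : √(x : ℝ) ≤ √(4 * τ) * #(below (AA (fun j => 2 ^ j) B) x) := by
      rw [← Real.sqrt_sq (Nat.cast_nonneg (α := ℝ) #(below (AA (fun j => 2 ^ j) B) x)),
        ← Real.sqrt_mul (by positivity)]
      refine Real.sqrt_le_sqrt (h1.trans (le_of_eq ?_))
      push_cast
      ring
    rw [one_div, inv_mul_le_iff₀ (by positivity)]
    exact h2
  refine ⟨AA (fun j => 2 ^ j) B, 1 / √(4 * τ), 2401 * max D 1, by positivity, hcount, ?_, ?_⟩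
  · intro x
    have h1 := Pool.Agent.Helper5.RC.mean_square chain_two hE x
    refine le_trans (le_of_eq ?_) h1
    exact sum_congr rfl fun n _ => by rw [Pool.Agent.Helper80.RC.rep_eq]
  · intro i
    refine tendsto_dist B hBr _ (by positivity) hcount (phi (zs i)) (zs i) fun ε hε => ?_
    obtain ⟨s, hs⟩ : ∃ s : ℕ, 1 / ε ≤ s := exists_nat_ge _
    filter_upwards [hσlim (max (i + 1) s), eventually_ge_atTop J] with j h1 h2 y
    have hi : zs i ∈ (range (σ j)).image zs :=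
      mem_image_of_mem _ (mem_range.2 (Nat.lt_of_lt_of_le (Nat.lt_succ_self i)
        ((le_max_left _ _).trans h1)))
    have h3 := (hB1 j h2).2.2.2.2 (zs i) hi y
    refine h3.trans ?_
    have hs0 : (0 : ℝ) < s := lt_of_lt_of_le (by positivity) hs
    have h4 : (s : ℝ) ≤ σ j := by exact_mod_cast (le_max_right _ _).trans h1
    have h5 : (0 : ℝ) < σ j := hs0.trans_le h4
    rw [div_le_iff₀ h5]
    have h6 : 1 ≤ ε * σ j := by
      rw [div_le_iff₀ hε] at hs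
      nlinarith
    have h7 : 0 ≤ √((2 : ℝ) ^ j) := Real.sqrt_nonneg _
    nlinarith

end Pool.Agent.Helper80.SP
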