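import Mathlib

/-!
# Spectrum theorem: energy and means of trigonometric weights
-/

set_option autoImplicit false

open Finset
open scoped ComplexConjugate

namespace Pool.Agent.Helper80.SP

/-- the bound for geometric sums; it is `0` for `u = 1` -/
noncomputable def cs (u : Circle) : ℝ := 2 / ‖(u : ℂ) - 1‖

theorem cs_nonneg (u : Circle) : 0 ≤ cs u := by unfold cs; positivity

theorem geom_le (u : Circle) (hu : u ≠ 1) (y : ℕ) : ‖∑ a ∈ range y, (u : ℂ) ^ a‖ ≤ cs u := by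
  have hne : (u : ℂ) ≠ 1 := fun h => hu (Circle.ext (by rw [h, Circle.coe_one]))
  rw [geom_sum_eq hne, norm_div]
  unfold cs
  refine div_le_div_of_nonneg_right ?_ (norm_nonneg _)
  refine (norm_sub_le _ _).trans ?_
  rw [norm_pow, Circle.norm_coe, one_pow, norm_one]
  norm_num

theorem geom_Ico_le (u : Circle) (hu : u ≠ 1) (l h : ℕ) :
    ‖∑ a ∈ Ico l h, (u : ℂ) ^ a‖ ≤ cs u := by
  rw [sum_Ico_eq_sum_range]
  have h1 : ∑ k ∈ range (h - l), (u : ℂ) ^ (l + k) = (u : ℂ) ^ l * ∑ k ∈ range (h - l), (u : ℂ) ^ k := by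
    rw [mul_sum]
    exact sum_congr rfl fun k _ => pow_add _ _ _
  rw [h1, norm_mul, norm_pow, Circle.norm_coe, one_pow, one_mul]
  exact geom_le u hu _

/-- **(P5)** means of the weights -/
theorem meanW [DecidableEq Circle] (D : Finset Circle) (z : Circle) : ∃ C : ℝ, 0 ≤ C ∧
    ∀ g : Circle → ℂ, (∀ z ∈ D, ‖g z‖ ≤ 1) → ∀ w : ℕ → ℝ,
      (∀ a, ((w a : ℝ) : ℂ) = ∑ z ∈ D, g z * ((z⁻¹ : Circle) : ℂ) ^ a) →
      ∀ y : ℕ, ‖∑ a ∈ range y, (w a : ℂ) * (z : ℂ) ^ a - (if z ∈ D then g z else 0) * y‖ ≤ C := by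
  refine ⟨∑ η ∈ D, cs (η⁻¹ * z), sum_nonneg fun _ _ => cs_nonneg _, fun g hg w hw y => ?_⟩
  have h1 : ∑ a ∈ range y, (w a : ℂ) * (z : ℂ) ^ a =
      ∑ η ∈ D, g η * ∑ a ∈ range y, ((η⁻¹ * z : Circle) : ℂ) ^ a := by
    simp_rw [mul_sum]
    rw [sum_comm]
    refine sum_congr rfl fun a _ => ?_
    rw [hw a, sum_mul]
    refine sum_congr rfl fun η _ => ?_
    rw [Circle.coe_mul, mul_pow]
    ring
  have h2 : (if z ∈ D then g z else 0) * (y : ℂ) = ∑ η ∈ D, (if η = z then g η * y else 0) := by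
    rw [sum_ite_eq' D z (fun η => g η * (y : ℂ))]
    split_ifs <;> simp
  rw [h1, h2, ← sum_sub_distrib]
  refine (norm_sum_le _ _).trans (sum_le_sum fun η hη => ?_)
  by_cases h : η = z
  · rw [if_pos h, h, inv_mul_cancel]
    simp [cs]
  · rw [if_neg h, sub_zero, norm_mul]
    have h3 : η⁻¹ * z ≠ 1 := fun h4 => h (inv_mul_eq_one.1 h4)
    have h4 := geom_le _ h3 y
    have h5 := hg η hη
    calc ‖g η‖ * ‖∑ a ∈ range y, ((η⁻¹ * z : Circle) : ℂ) ^ a‖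
        ≤ 1 * cs (η⁻¹ * z) := mul_le_mul h5 h4 (norm_nonneg _) zero_le_one
      _ = _ := one_mul _

/-- the pairs below `M` with sum `n` -/
def prs (M n : ℕ) : Finset (ℕ × ℕ) := (range M ×ˢ range M).filter fun p => p.1 + p.2 = n

theorem sum_prs (M n : ℕ) (f : ℕ → ℕ → ℂ) :
    ∑ p ∈ prs M n, f p.1 p.2 = ∑ a ∈ Ico (n + 1 - M) (min (n + 1) M), f a (n - a) := by
  refine sum_bij (fun p _ => p.1) ?_ ?_ ?_ ?_
  · intro p hp
    unfold prs at hp
    rw [mem_filter, mem_product, mem_range, mem_range] at hp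
    rw [mem_Ico]
    omega
  · intro p hp p' hp' h
    unfold prs at hp hp'
    rw [mem_filter, mem_product, mem_range, mem_range] at hp hp'
    exact Prod.ext h (by omega)
  · intro a ha
    rw [mem_Ico] at ha
    refine ⟨(a, n - a), ?_, rfl⟩
    unfold prs
    rw [mem_filter, mem_product, mem_range, mem_range]
    omega
  · intro p hp
    unfold prs at hp
    rw [mem_filter, mem_product, mem_range, mem_range] at hp
    have : n - p.1 = p.2 := by omega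
    rw [this]

theorem card_prs (M n : ℕ) : #(prs M n) ≤ M := by
  have h : #(prs M n) ≤ #(range M) := by
    refine card_le_card_of_injOn (fun p => p.1) ?_ ?_
    · intro p hp
      have hp' := mem_coe.1 hp
      unfold prs at hp'
      rw [mem_filter, mem_product] at hp'
      exact mem_coe.2 hp'.1.1
    · intro p hp p' hp' h
      have h1 := mem_coe.1 hp
      have h2 := mem_coe.1 hp'
      unfold prs at h1 h2
      rw [mem_filter] at h1 h2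
      have h3 : p.1 = p'.1 := h
      exact Prod.ext h3 (by omega)
  rwa [card_range] at h

/-- the sum over pairs for two frequencies -/
theorem pair_le [DecidableEq Circle] (z z' : Circle) (M n : ℕ) :
    ‖∑ p ∈ prs M n, (z : ℂ) ^ p.1 * (z' : ℂ) ^ p.2 -
      (if z = z' then (#(prs M n) : ℂ) * (z : ℂ) ^ n else 0)‖ ≤ cs (z * z'⁻¹) := by
  by_cases h : z = z'
  · rw [if_pos h, ← h, mul_inv_cancel]
    have h1 : ∑ p ∈ prs M n, (z : ℂ) ^ p.1 * (z : ℂ) ^ p.2 = (#(prs M n) : ℂ) * (z : ℂ) ^ n := by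
      rw [← nsmul_eq_mul, ← sum_const]
      refine sum_congr rfl fun p hp => ?_
      unfold prs at hp
      rw [← pow_add, (mem_filter.1 hp).2]
    rw [h1, sub_self, norm_zero]
    exact cs_nonneg _
  · rw [if_neg h, sub_zero, sum_prs M n (fun a b => (z : ℂ) ^ a * (z' : ℂ) ^ b)]
    have h1 : ∑ a ∈ Ico (n + 1 - M) (min (n + 1) M), (z : ℂ) ^ a * (z' : ℂ) ^ (n - a) =
        (z' : ℂ) ^ n * ∑ a ∈ Ico (n + 1 - M) (min (n + 1) M), ((z * z'⁻¹ : Circle) : ℂ) ^ a := by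
      rw [mul_sum]
      refine sum_congr rfl fun a ha => ?_
      rw [mem_Ico] at ha
      have h2 : n = (n - a) + a := by omega
      have h3 : (z' : ℂ) ^ n = (z' : ℂ) ^ (n - a) * (z' : ℂ) ^ a := by
        rw [← pow_add, ← h2]
      rw [h3, Circle.coe_mul, mul_pow, Circle.coe_inv, inv_pow]
      have h4 : (z' : ℂ) ^ a ≠ 0 := pow_ne_zero _ (Circle.coe_ne_zero z')
      field_simp
    rw [h1, norm_mul, norm_pow, Circle.norm_coe, one_pow, one_mul]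
    exact geom_Ico_le _ (fun h5 => h (mul_inv_eq_one.1 h5)) _ _

/-- **(P4)** the energy of the weights -/
theorem energyW [DecidableEq Circle] (D : Finset Circle) : ∃ C : ℝ, 0 ≤ C ∧
    ∀ g : Circle → ℂ, (∀ z ∈ D, ‖g z‖ ≤ 1) → ∀ w : ℕ → ℝ,
      (∀ a, ((w a : ℝ) : ℂ) = ∑ z ∈ D, g z * ((z⁻¹ : Circle) : ℂ) ^ a) →
      ∀ M : ℕ, ∑ n ∈ range (2 * M), (∑ p ∈ (range M ×ˢ range M).filter (fun p => p.1 + p.2 = n),
        w p.1 * w p.2) ^ 2 ≤ 4 * (M : ℝ) ^ 3 * ∑ z ∈ D, ‖g z‖ ^ 4 + C * ((M : ℝ) + 1) ^ 2 := by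
  obtain ⟨K, hK⟩ : ∃ K, K = ∑ z ∈ D, ∑ z' ∈ D, cs (z⁻¹ * (z'⁻¹)⁻¹) := ⟨_, rfl⟩
  have hK0 : 0 ≤ K := by
    rw [hK]
    exact sum_nonneg fun _ _ => sum_nonneg fun _ _ => cs_nonneg _
  refine ⟨2 * K + 4 * K ^ 2, by positivity, fun g hg w hw M => ?_⟩
  obtain ⟨G, hG⟩ : ∃ G : ℕ → ℂ, G = fun n => ∑ z ∈ D, g z ^ 2 * ((z⁻¹ : Circle) : ℂ) ^ n :=
    ⟨_, rfl⟩
  -- the convolution
  have hR : ∀ n : ℕ, ‖((∑ p ∈ prs M n, w p.1 * w p.2 : ℝ) : ℂ) - #(prs M n) * G n‖ ≤ K := by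
    intro n
    have h1 : ((∑ p ∈ prs M n, w p.1 * w p.2 : ℝ) : ℂ) = ∑ z ∈ D, ∑ z' ∈ D,
        g z * g z' * ∑ p ∈ prs M n, ((z⁻¹ : Circle) : ℂ) ^ p.1 * ((z'⁻¹ : Circle) : ℂ) ^ p.2 := by
      push_cast
      simp_rw [mul_sum]
      have h2 : ∀ p ∈ prs M n, (w p.1 : ℂ) * (w p.2 : ℂ) = ∑ z ∈ D, ∑ z' ∈ D,
          g z * g z' * (((z⁻¹ : Circle) : ℂ) ^ p.1 * ((z'⁻¹ : Circle) : ℂ) ^ p.2) := by
        intro p _
        rw [hw p.1, hw p.2, sum_mul_sum]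
        refine sum_congr rfl fun z _ => sum_congr rfl fun z' _ => ?_
        ring
      rw [sum_congr rfl h2, sum_comm]
      exact sum_congr rfl fun z _ => sum_comm
    have h3 : (#(prs M n) : ℂ) * G n = ∑ z ∈ D, ∑ z' ∈ D, g z * g z' *
        (if z⁻¹ = z'⁻¹ then (#(prs M n) : ℂ) * ((z⁻¹ : Circle) : ℂ) ^ n else 0) := by
      rw [hG]
      simp only
      rw [mul_sum]
      refine sum_congr rfl fun z hz => ?_
      have h4 : ∀ z' ∈ D, g z * g z' *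
          (if z⁻¹ = z'⁻¹ then (#(prs M n) : ℂ) * ((z⁻¹ : Circle) : ℂ) ^ n else 0) =
          if z = z' then g z * g z' * ((#(prs M n) : ℂ) * ((z⁻¹ : Circle) : ℂ) ^ n) else 0 := by
        intro z' _
        simp only [inv_inj, mul_ite, mul_zero]
      rw [sum_congr rfl h4, sum_ite_eq D z, if_pos hz]
      ring
    rw [h1, h3, ← sum_sub_distrib, hK]
    refine (norm_sum_le _ _).trans (sum_le_sum fun z hz => ?_)
    rw [← sum_sub_distrib]
    refine (norm_sum_le _ _).trans (sum_le_sum fun z' hz' => ?_)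
    rw [← mul_sub, norm_mul, norm_mul]
    have h5 := pair_le z⁻¹ z'⁻¹ M n
    have h6 : ‖g z‖ * ‖g z'‖ ≤ 1 := by
      have := mul_le_mul (hg z hz) (hg z' hz') (norm_nonneg _) zero_le_one
      linarith
    calc ‖g z‖ * ‖g z'‖ * _ ≤ 1 * cs (z⁻¹ * (z'⁻¹)⁻¹) :=
          mul_le_mul h6 h5 (norm_nonneg _) zero_le_one
      _ = _ := one_mul _
  -- the mean square of `G`
  have hG2 : ∑ n ∈ range (2 * M), ‖G n‖ ^ 2 ≤ 2 * M * ∑ z ∈ D, ‖g z‖ ^ 4 + K := by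
    have h1 : ((∑ n ∈ range (2 * M), ‖G n‖ ^ 2 : ℝ) : ℂ) = ∑ z ∈ D, ∑ z' ∈ D,
        g z ^ 2 * conj (g z' ^ 2) * ∑ n ∈ range (2 * M), ((z⁻¹ * (z'⁻¹)⁻¹ : Circle) : ℂ) ^ n := by
      push_cast
      have h2 : ∀ n ∈ range (2 * M), ((‖G n‖ : ℂ)) ^ 2 = ∑ z ∈ D, ∑ z' ∈ D,
          g z ^ 2 * conj (g z' ^ 2) * ((z⁻¹ * (z'⁻¹)⁻¹ : Circle) : ℂ) ^ n := by
        intro n _
        rw [← Complex.mul_conj', hG]
        simp only
        rw [map_sum, sum_mul_sum]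
        refine sum_congr rfl fun z _ => sum_congr rfl fun z' _ => ?_
        rw [map_mul, map_pow (starRingEnd ℂ) (((z'⁻¹ : Circle) : ℂ)) n, ← Circle.coe_inv_eq_conj,
          Circle.coe_mul, mul_pow]
        ring
      rw [sum_congr rfl h2, sum_comm]
      simp_rw [mul_sum]
      exact sum_congr rfl fun z _ => sum_comm
    have h3 : (((2 * M * ∑ z ∈ D, ‖g z‖ ^ 4 : ℝ)) : ℂ) = ∑ z ∈ D, ∑ z' ∈ D,
        g z ^ 2 * conj (g z' ^ 2) * (if z = z' then ((2 * M : ℕ) : ℂ) else 0) := by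
      push_cast
      rw [mul_sum]
      refine sum_congr rfl fun z hz => ?_
      simp only [mul_ite, mul_zero]
      rw [sum_ite_eq D z, if_pos hz]
      have h4 : ((‖g z‖ : ℂ)) ^ 4 = g z ^ 2 * conj (g z ^ 2) := by
        rw [Complex.mul_conj', norm_pow]
        push_cast
        ring
      rw [h4]
      ring
    have h5 : ‖((∑ n ∈ range (2 * M), ‖G n‖ ^ 2 : ℝ) : ℂ) -
        (((2 * M * ∑ z ∈ D, ‖g z‖ ^ 4 : ℝ)) : ℂ)‖ ≤ K := by
      rw [h1, h3, ← sum_sub_distrib, hK]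
      refine (norm_sum_le _ _).trans (sum_le_sum fun z hz => ?_)
      rw [← sum_sub_distrib]
      refine (norm_sum_le _ _).trans (sum_le_sum fun z' hz' => ?_)
      rw [← mul_sub, norm_mul, norm_mul, RCLike.norm_conj, norm_pow, norm_pow]
      have h6 : ‖g z‖ ^ 2 * ‖g z'‖ ^ 2 ≤ 1 := by
        have a1 := pow_le_one₀ (norm_nonneg _) (hg z hz) (n := 2)
        have a2 := pow_le_one₀ (norm_nonneg _) (hg z' hz') (n := 2)
        have := mul_le_mul a1 a2 (by positivity) zero_le_one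
        linarith
      have h7 : ‖∑ n ∈ range (2 * M), ((z⁻¹ * (z'⁻¹)⁻¹ : Circle) : ℂ) ^ n -
          (if z = z' then ((2 * M : ℕ) : ℂ) else 0)‖ ≤ cs (z⁻¹ * (z'⁻¹)⁻¹) := by
        by_cases h : z = z'
        · rw [if_pos h, ← h, mul_inv_cancel]
          simp [cs]
        · rw [if_neg h, sub_zero]
          refine geom_le _ (fun h8 => h ?_) _
          exact inv_inj.1 (mul_inv_eq_one.1 h8)
      calc ‖g z‖ ^ 2 * ‖g z'‖ ^ 2 * _ ≤ 1 * cs (z⁻¹ * (z'⁻¹)⁻¹) :=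
            mul_le_mul h6 h7 (norm_nonneg _) zero_le_one
        _ = _ := one_mul _
    rw [← Complex.ofReal_sub, Complex.norm_real, Real.norm_eq_abs] at h5
    have := (abs_le.1 h5).2
    linarith
  -- together
  have hM : ∀ n : ℕ, (∑ p ∈ prs M n, w p.1 * w p.2) ^ 2 ≤
      2 * (M : ℝ) ^ 2 * ‖G n‖ ^ 2 + 2 * K ^ 2 := by
    intro n
    have h1 : |∑ p ∈ prs M n, w p.1 * w p.2| ≤ M * ‖G n‖ + K := by
      have h2 : |∑ p ∈ prs M n, w p.1 * w p.2| =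
          ‖((∑ p ∈ prs M n, w p.1 * w p.2 : ℝ) : ℂ)‖ := by
        rw [Complex.norm_real, Real.norm_eq_abs]
      rw [h2]
      have h3 : ((∑ p ∈ prs M n, w p.1 * w p.2 : ℝ) : ℂ) =
          (((∑ p ∈ prs M n, w p.1 * w p.2 : ℝ) : ℂ) - #(prs M n) * G n) +
            #(prs M n) * G n := by ring
      rw [h3]
      refine (norm_add_le _ _).trans ?_
      have h4 : ‖(#(prs M n) : ℂ) * G n‖ ≤ M * ‖G n‖ := by
        rw [norm_mul, Complex.norm_natCast]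
        exact mul_le_mul_of_nonneg_right (by exact_mod_cast card_prs M n) (norm_nonneg _)
      have := hR n
      linarith
    have h2 : (∑ p ∈ prs M n, w p.1 * w p.2) ^ 2 ≤ (M * ‖G n‖ + K) ^ 2 := by
      rw [← sq_abs]
      exact pow_le_pow_left₀ (abs_nonneg _) h1 2
    have h3 : 0 ≤ (M * ‖G n‖ - K) ^ 2 := sq_nonneg _
    nlinarith
  have hfin : ∑ n ∈ range (2 * M), (∑ p ∈ prs M n, w p.1 * w p.2) ^ 2 ≤
      2 * (M : ℝ) ^ 2 * (2 * M * ∑ z ∈ D, ‖g z‖ ^ 4 + K) + 2 * M * (2 * K ^ 2) := by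
    refine (sum_le_sum fun n _ => hM n).trans ?_
    rw [sum_add_distrib, ← mul_sum, sum_const, card_range, nsmul_eq_mul]
    push_cast
    have := mul_le_mul_of_nonneg_left hG2 (by positivity : 0 ≤ 2 * (M : ℝ) ^ 2)
    linarith
  refine hfin.trans ?_
  have hM0 : (0 : ℝ) ≤ M := Nat.cast_nonneg _
  have e1 : 2 * (M : ℝ) ^ 2 * (2 * M * ∑ z ∈ D, ‖g z‖ ^ 4 + K) + 2 * M * (2 * K ^ 2) =
      4 * (M : ℝ) ^ 3 * ∑ z ∈ D, ‖g z‖ ^ 4 + (2 * K * M ^ 2 + 4 * K ^ 2 * M) := by ring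
  rw [e1]
  have h1 : 2 * K * (M : ℝ) ^ 2 ≤ 2 * K * ((M : ℝ) + 1) ^ 2 :=
    mul_le_mul_of_nonneg_left (by nlinarith) (by positivity)
  have h2 : 4 * K ^ 2 * (M : ℝ) ≤ 4 * K ^ 2 * ((M : ℝ) + 1) ^ 2 :=
    mul_le_mul_of_nonneg_left (by nlinarith) (by positivity)
  linarith

end Pool.Agent.Helper80.SP
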