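import Pool.Agent.Helper25.RC.Defs

/-!
# Spectrum theorem: limits along subsequences, and positive definiteness
-/

set_option autoImplicit false

open Finset Filter
open scoped ComplexConjugate

namespace Pool.Agent.Helper80.SP

open Pool.Agent.Helper25.RC (below mem_below)

/-- the mean of `z ^ a` over the elements `a` of `A` below `x` -/
noncomputable def mean (A : Set ℕ) (x : ℕ) (z : Circle) : ℂ :=
  (∑ a ∈ below A x, (z : ℂ) ^ a) / #(below A x)

theorem norm_mean_le (A : Set ℕ) (x : ℕ) (z : Circle) : ‖mean A x z‖ ≤ 1 := by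
  unfold mean
  rw [norm_div, Complex.norm_natCast]
  refine div_le_one_of_le₀ ?_ (Nat.cast_nonneg _)
  refine (norm_sum_le _ _).trans (le_of_eq ?_)
  have h3 : ∀ b ∈ below A x, ‖(z : ℂ) ^ b‖ = 1 := by
    intro b _
    rw [norm_pow, Circle.norm_coe, one_pow]
  rw [sum_congr rfl h3, sum_const, nsmul_eq_mul, mul_one]

theorem mean_one (A : Set ℕ) (x : ℕ) (hx : 0 < #(below A x)) : mean A x 1 = 1 := by
  unfold mean
  have h1 : ((#(below A x) : ℕ) : ℂ) ≠ 0 := by exact_mod_cast hx.ne'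
  simp only [Circle.coe_one, one_pow, sum_const, nsmul_eq_mul, mul_one]
  exact div_self h1

/-- **limits exist** along a subsequence, for a sequence of points of the circle -/
theorem exists_limitS (A : Set ℕ) (y : ℕ → ℕ) (zs : ℕ → Circle) :
    ∃ (φ : ℕ → ℕ) (l : ℕ → ℂ), StrictMono φ ∧
      ∀ i : ℕ, Tendsto (fun n => mean A (y (φ n)) (zs i)) atTop (nhds (l i)) := by
  have hK : IsCompact (Set.pi Set.univ fun _ : ℕ => Metric.closedBall (0 : ℂ) 1) :=
    isCompact_univ_pi fun _ => isCompact_closedBall _ _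
  obtain ⟨l, _, φ, hφ, hlim⟩ := hK.tendsto_subseq (x := fun n i => mean A (y n) (zs i))
    fun n => by
      intro i _
      rw [mem_closedBall_zero_iff]
      exact norm_mean_le A (y n) (zs i)
  exact ⟨φ, l, hφ, fun i => tendsto_pi_nhds.1 hlim i⟩

/-- the quadratic form of the means is the mean of squares -/
theorem mean_form (A : Set ℕ) (x : ℕ) {ι : Type} (s : Finset ι) (c : ι → ℂ) (z : ι → Circle) :
    ∑ i ∈ s, ∑ j ∈ s, c i * conj (c j) * mean A x (z i / z j) =
      ((∑ a ∈ below A x, ‖∑ i ∈ s, c i * (z i : ℂ) ^ a‖ ^ 2) / #(below A x) : ℝ) := by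
  have h2 : ∀ i ∈ s, ∀ j ∈ s, c i * conj (c j) * mean A x (z i / z j) =
      (∑ a ∈ below A x, (c i * (z i : ℂ) ^ a) * conj (c j * (z j : ℂ) ^ a)) /
        #(below A x) := by
    intro i _ j _
    unfold mean
    rw [mul_div_assoc', mul_sum]
    congr 1
    refine sum_congr rfl fun a _ => ?_
    have h3 : (((z i / z j : Circle) : ℂ)) ^ a = (z i : ℂ) ^ a * conj ((z j : ℂ) ^ a) := by
      rw [Circle.coe_div, div_pow, map_pow, ← Circle.coe_inv_eq_conj, Circle.coe_inv,
        inv_pow, div_eq_mul_inv]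
    rw [h3, map_mul]
    ring
  rw [sum_congr rfl fun i hi => sum_congr rfl fun j hj => h2 i hi j hj]
  have h4 : ∀ a ∈ below A x, ((‖∑ i ∈ s, c i * (z i : ℂ) ^ a‖ : ℂ)) ^ 2 =
      ∑ i ∈ s, ∑ j ∈ s, (c i * (z i : ℂ) ^ a) * conj (c j * (z j : ℂ) ^ a) := by
    intro a _
    rw [← Complex.mul_conj', map_sum, sum_mul_sum]
  have h5 : ∑ i ∈ s, ∑ j ∈ s, ∑ a ∈ below A x,
      (c i * (z i : ℂ) ^ a) * conj (c j * (z j : ℂ) ^ a) =
      ∑ a ∈ below A x, ∑ i ∈ s, ∑ j ∈ s,
        (c i * (z i : ℂ) ^ a) * conj (c j * (z j : ℂ) ^ a) := by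
    rw [sum_congr rfl fun i _ => sum_comm]
    exact sum_comm
  push_cast
  rw [sum_congr rfl h4, ← h5]
  simp_rw [← sum_div]

/-- the means are positive definite -/
theorem mean_pos (A : Set ℕ) (x : ℕ) {ι : Type} (s : Finset ι) (c : ι → ℂ) (z : ι → Circle) :
    0 ≤ (∑ i ∈ s, ∑ j ∈ s, c i * conj (c j) * mean A x (z i / z j)).re ∧
      (∑ i ∈ s, ∑ j ∈ s, c i * conj (c j) * mean A x (z i / z j)).im = 0 := by
  rw [mean_form, Complex.ofReal_re, Complex.ofReal_im]
  exact ⟨by positivity, rfl⟩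

/-- limits of the means are positive definite -/
theorem limit_pos (A : Set ℕ) {F : Filter ℕ} [F.NeBot] (phi : Circle → ℂ) {ι : Type}
    (s : Finset ι) (c : ι → ℂ) (z : ι → Circle)
    (h : ∀ i ∈ s, ∀ j ∈ s, Tendsto (fun x => mean A x (z i / z j)) F (nhds (phi (z i / z j)))) :
    0 ≤ (∑ i ∈ s, ∑ j ∈ s, c i * conj (c j) * phi (z i / z j)).re ∧
      (∑ i ∈ s, ∑ j ∈ s, c i * conj (c j) * phi (z i / z j)).im = 0 := by
  have h0 : Tendsto (fun x => ∑ i ∈ s, ∑ j ∈ s, c i * conj (c j) * mean A x (z i / z j)) F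
      (nhds (∑ i ∈ s, ∑ j ∈ s, c i * conj (c j) * phi (z i / z j))) :=
    tendsto_finsetSum _ fun i hi => tendsto_finsetSum _ fun j hj =>
      (h i hi j hj).const_mul _
  have h1 := (Complex.continuous_re.tendsto _).comp h0
  have h2 := (Complex.continuous_im.tendsto _).comp h0
  refine ⟨ge_of_tendsto' h1 fun x => (mean_pos A x s c z).1, ?_⟩
  refine tendsto_nhds_unique h2 ?_
  refine tendsto_const_nhds.congr fun x => ?_
  exact (mean_pos A x s c z).2.symm

end Pool.Agent.Helper80.SP
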