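import Pool.Agent.Helper38.GP.Factor
import Pool.Agent.Helper38.GP.LiftRoots

/-! Values of the divisors of a power of a Weierstrass polynomial at its roots. -/

namespace Pool.Agent.Helper80.SP

open MvPowerSeries Pool.Agent.Helper38.EQ Pool.Agent.Helper38.GP

/-- A divisor of a product of linear polynomials is a product of some of them, up to a unit. -/
theorem assoc_of_mul_eq_prod {R : Type} [CommRing R] [IsDomain R] (S : Multiset R) :
    ∀ Q Q' : Polynomial R,
      Q * Q' = (S.map fun a => Polynomial.X - Polynomial.C a).prod →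
      ∃ T ≤ S, Associated Q (T.map fun a => Polynomial.X - Polynomial.C a).prod := by
  induction S using Multiset.induction_on with
  | empty =>
    intro Q Q' h
    rw [Multiset.map_zero, Multiset.prod_zero] at h
    refine ⟨0, le_rfl, ?_⟩
    rw [Multiset.map_zero, Multiset.prod_zero]
    exact associated_one_iff_isUnit.2 (IsUnit.of_mul_eq_one _ h)
  | cons a S ih =>
    intro Q Q' h
    rw [Multiset.map_cons, Multiset.prod_cons] at h
    have hp : Prime (Polynomial.X - Polynomial.C a) := Polynomial.prime_X_sub_C a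
    have h1 : (Polynomial.X - Polynomial.C a) ∣ Q * Q' := ⟨_, h⟩
    rcases hp.dvd_or_dvd h1 with h2 | h2
    · obtain ⟨Q1, rfl⟩ := h2
      have h3 : Q1 * Q' = (S.map fun a => Polynomial.X - Polynomial.C a).prod := by
        refine mul_left_cancel₀ hp.ne_zero ?_
        rw [← mul_assoc]
        exact h
      obtain ⟨T, hT, hQ⟩ := ih Q1 Q' h3
      refine ⟨a ::ₘ T, (Multiset.cons_le_cons_iff a).2 hT, ?_⟩
      rw [Multiset.map_cons, Multiset.prod_cons]
      exact hQ.mul_left _
    · obtain ⟨Q1, rfl⟩ := h2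
      have h3 : Q * Q1 = (S.map fun a => Polynomial.X - Polynomial.C a).prod := by
        refine mul_left_cancel₀ hp.ne_zero ?_
        rw [← h]
        ring
      obtain ⟨T, hT, hQ⟩ := ih Q Q1 h3
      exact ⟨T, hT.trans (Multiset.le_cons_self _ _), hQ⟩

section

variable {d : ℕ} {K : Type} [Field K]

/-- Zero, or a power of `s` up to a unit. -/
def Pw (x : WS d K) : Prop := x = 0 ∨ ∃ e, Associated x (PowerSeries.X ^ e)

theorem Pw.one : Pw (1 : WS d K) := Or.inr ⟨0, by rw [pow_zero]⟩

theorem Pw.of_isUnit {x : WS d K} (hx : IsUnit x) : Pw x :=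
  Or.inr ⟨0, by rw [pow_zero]; exact associated_one_iff_isUnit.2 hx⟩

theorem Pw.mul {x y : WS d K} (hx : Pw x) (hy : Pw y) : Pw (x * y) := by
  rcases hx with rfl | ⟨e, hx⟩
  · exact Or.inl (zero_mul _)
  · rcases hy with rfl | ⟨e', hy⟩
    · exact Or.inl (mul_zero _)
    · refine Or.inr ⟨e + e', ?_⟩
      rw [pow_add]
      exact hx.mul_mul hy

theorem Pw.multiset_prod {S : Multiset (WS d K)} (h : ∀ x ∈ S, Pw x) : Pw S.prod := by
  induction S using Multiset.induction_on with
  | empty => rw [Multiset.prod_zero]; exact Pw.one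
  | cons a S ih =>
    rw [Multiset.prod_cons]
    exact (h a (Multiset.mem_cons_self a S)).mul
      (ih fun x hx => h x (Multiset.mem_cons_of_mem hx))

theorem Pw.of_assoc {x y : WS d K} (hx : Pw x) (h : Associated y x) : Pw y := by
  rcases hx with rfl | ⟨e, hx⟩
  · exact Or.inl ((associated_zero_iff_eq_zero y).1 h)
  · exact Or.inr ⟨e, h.trans hx⟩

/-- The value of a divisor of a power of `∏ (T - ρ_i)` at a root, if all differences of the roots
are `0` or powers of `s` up to units. -/
theorem pw_eval {m N : ℕ} {Q Q' : Polynomial (WS d K)} {ρ : Fin m → WS d K}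
    (h : Q * Q' = (∏ i, (Polynomial.X - Polynomial.C (ρ i))) ^ N)
    (hρ : ∀ i j, Pw (ρ i - ρ j)) (i : Fin m) : Pw (Q.eval (ρ i)) := by
  classical
  have h1 : (∏ i, (Polynomial.X - Polynomial.C (ρ i))) ^ N =
      ((N • (Finset.univ.val.map ρ)).map fun a => Polynomial.X - Polynomial.C a).prod := by
    rw [Multiset.map_nsmul, Multiset.prod_nsmul, Multiset.map_map]
    rfl
  rw [h1] at h
  obtain ⟨T, hT, hQ⟩ := assoc_of_mul_eq_prod _ Q Q' h
  have h2 := hQ.map (Polynomial.evalRingHom (ρ i))
  rw [Polynomial.coe_evalRingHom] at h2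
  refine Pw.of_assoc ?_ h2
  rw [Polynomial.eval_multiset_prod, Multiset.map_map]
  refine Pw.multiset_prod fun x hx => ?_
  obtain ⟨a, ha, rfl⟩ := Multiset.mem_map.1 hx
  have h3 := Multiset.mem_of_le hT ha
  have h4 := (Multiset.mem_nsmul.1 h3).2
  obtain ⟨j, -, rfl⟩ := Multiset.mem_map.1 h4
  rw [Function.comp_apply, Polynomial.eval_sub, Polynomial.eval_X, Polynomial.eval_C]
  exact hρ i j

end

/-- Let `F` be a distinguished polynomial over `K⟦y⟧` that splits under `Γ : K⟦y⟧ → K⟦w⟧⟦s⟧`, with
differences of the roots `0` or powers of `s` up to units. Then the value at a root of a divisor of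
a power of `F` is `0` or a power of `s` up to a unit. -/
theorem pw_root {n d m N : ℕ} {K : Type} [Field K]
    {F : Polynomial (MvPowerSeries (Fin n) K)}
    (hF : F.IsDistinguishedAt (IsLocalRing.maximalIdeal (MvPowerSeries (Fin n) K)))
    (Γ : PowerSeries (MvPowerSeries (Fin n) K) →ₐ[K] WS d K) {ρ : Fin m → WS d K}
    (hρ : F.map ((Γ : PowerSeries (MvPowerSeries (Fin n) K) →+* WS d K).comp PowerSeries.C) =
      ∏ i, (Polynomial.X - Polynomial.C (ρ i)))
    (hd : ∀ i j, Pw (ρ i - ρ j)) {i : Fin m} (hi : Γ PowerSeries.X = ρ i)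
    {h : PowerSeries (MvPowerSeries (Fin n) K)}
    (hh : h ∣ (F : PowerSeries (MvPowerSeries (Fin n) K)) ^ N) : Pw (Γ h) := by
  have hcomp := isAdicComplete_mvPowerSeries n K
  obtain ⟨h', hh'⟩ := hh
  have hFw : ((F : PowerSeries (MvPowerSeries (Fin n) K)) ^ N).IsWeierstrassFactorization
      (F ^ N) 1 := by
    refine ⟨?_, isUnit_one, by rw [mul_one, Polynomial.coe_pow]⟩
    have : ∀ N : ℕ, (F ^ N).IsDistinguishedAt
        (IsLocalRing.maximalIdeal (MvPowerSeries (Fin n) K)) := by
      intro N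
      induction N with
      | zero =>
        rw [pow_zero]
        exact ⟨⟨fun {n} hn => by simp at hn⟩, Polynomial.monic_one⟩
      | succ N ih =>
        rw [pow_succ]
        exact ih.mul hF
    exact this N
  have h0 := hFw.map_ne_zero
  rw [hh', map_mul] at h0
  obtain ⟨H, V, hHV⟩ := PowerSeries.exists_isWeierstrassFactorization (left_ne_zero_of_mul h0)
  obtain ⟨H', V', hHV'⟩ := PowerSeries.exists_isWeierstrassFactorization (right_ne_zero_of_mul h0)
  have h1 : ((F : PowerSeries (MvPowerSeries (Fin n) K)) ^ N).IsWeierstrassFactorization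
      (H * H') (V * V') := by
    rw [hh']
    exact hHV.mul hHV'
  have h2 : H * H' = F ^ N := (h1.elim hFw).1
  have h3 : Γ h = (H.map ((Γ : PowerSeries (MvPowerSeries (Fin n) K) →+* WS d K).comp
      PowerSeries.C)).eval (ρ i) * Γ V := by
    rw [hHV.eq_mul, map_mul, eval_coe, hi]
  rw [h3]
  refine Pw.mul (pw_eval (N := N) (Q' := H'.map ((Γ : PowerSeries (MvPowerSeries (Fin n) K) →+*
    WS d K).comp PowerSeries.C)) ?_ hd i) (Pw.of_isUnit (hHV.isUnit.map Γ))
  rw [← Polynomial.map_mul, h2, Polynomial.map_pow, hρ]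

end Pool.Agent.Helper80.SP
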