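import Pool.Agent.Helper80.SP.Diff
import Pool.Agent.Helper38.GP.LinA

/-! Systems of coordinates. -/

namespace Pool.Agent.Helper80.SP

open MvPowerSeries Pool.Agent.Helper38.EQ Pool.Agent.Helper38.GP

variable {n d : ℕ} {K : Type} [Field K]

/-- Series with independent linear parts, as many as variables, are coordinates. -/
theorem exists_coords {ι : Type} {h : ι → MvPowerSeries (Fin n) K} (hh : LinIndep h)
    (e : ι ≃ Fin n) : ∃ τ : MvPowerSeries (Fin n) K ≃ₐ[K] MvPowerSeries (Fin n) K,
      ∀ i, τ (X (e i)) = h i := by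
  have h1 : LinearIndependent K (Matrix.of fun i j : Fin n =>
      coeff (Finsupp.single j 1) (h (e.symm i))).row :=
    hh.2.comp e.symm e.symm.injective
  have h2 := Matrix.linearIndependent_rows_iff_isUnit.1 h1
  have h3 := ((Matrix.isUnit_iff_isUnit_det _).1 h2).ne_zero
  obtain ⟨τ, hτ⟩ := exists_algEquiv (fun i => h (e.symm i))
    (span_eq_of_linear _ (fun i => hh.1 _) h3)
  exact ⟨τ, fun i => by rw [hτ, e.symm_apply_apply]⟩

/-- Independence of the linear parts, in terms of the square of the maximal ideal. -/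
theorem linIndep_iff {ι : Type} [Fintype ι] (h : ι → MvPowerSeries (Fin n) K) :
    LinIndep h ↔ (∀ i, h i ∈ IsLocalRing.maximalIdeal (MvPowerSeries (Fin n) K)) ∧
      ∀ c : ι → K,
        ∑ i, C (c i) * h i ∈ IsLocalRing.maximalIdeal (MvPowerSeries (Fin n) K) ^ 2 → c = 0 := by
  unfold LinIndep
  have e1 : (∀ i, constantCoeff (h i) = 0) ↔
      ∀ i, h i ∈ IsLocalRing.maximalIdeal (MvPowerSeries (Fin n) K) :=
    forall_congr' fun i => (mem_maximalIdeal_iff_constantCoeff _).symm
  rw [← e1]
  refine and_congr_right fun h0 => ?_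
  rw [Fintype.linearIndependent_iff]
  refine forall_congr' fun c => ?_
  have e2 : (∑ i, c i • fun j : Fin n => coeff (Finsupp.single j 1) (h i)) = 0 ↔
      ∑ i, C (c i) * h i ∈ IsLocalRing.maximalIdeal (MvPowerSeries (Fin n) K) ^ 2 := by
    rw [Pool.Agent.Helper38.ED.LIBasic1_mem_sq_iff]
    have e3 : constantCoeff (∑ i, C (c i) * h i) = 0 := by
      rw [map_sum]
      exact Finset.sum_eq_zero fun i _ => by rw [map_mul, h0 i, mul_zero]
    have e4 : ∀ j : Fin n, coeff (Finsupp.single j 1) (∑ i, C (c i) * h i) =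
        ∑ i, c i * coeff (Finsupp.single j 1) (h i) := by
      intro j
      rw [map_sum]
      exact Finset.sum_congr rfl fun i _ => coeff_C_mul _ _ _
    constructor
    · intro h5
      refine ⟨e3, fun j => ?_⟩
      have h6 := congrFun h5 j
      rw [Finset.sum_apply] at h6
      rw [e4]
      exact h6
    · rintro ⟨-, h5⟩
      funext j
      rw [Finset.sum_apply]
      have h6 := h5 j
      rw [e4] at h6
      exact h6
  rw [e2]
  exact imp_congr_right fun _ => ⟨fun h => funext h, fun h i => congrFun h i⟩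

theorem tr_C (p : Proj n K) (a : R1 n K) : p.tr (p.σ.symm (PowerSeries.C a)) = 0 := by
  unfold Proj.tr
  rw [AlgEquiv.apply_symm_apply, PowerSeries.coeff_C, if_neg one_ne_zero, map_zero]

theorem tr_X (p : Proj n K) : p.tr (p.σ.symm PowerSeries.X) = 1 := by
  unfold Proj.tr
  rw [AlgEquiv.apply_symm_apply, PowerSeries.coeff_one_X, map_one]

/-- The value of `σ h` at `t = 0`. -/
noncomputable def cc (p : Proj n K) : MvPowerSeries (Fin (n + 1)) K →+* R1 n K :=
  (PowerSeries.constantCoeff (R := R1 n K)).comp (p.σ : SL n K →+* PowerSeries (R1 n K))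

theorem cc_apply (p : Proj n K) (h : MvPowerSeries (Fin (n + 1)) K) :
    cc p h = PowerSeries.constantCoeff (p.σ h) := rfl

theorem cc_symm_C (p : Proj n K) (a : R1 n K) : cc p (p.σ.symm (PowerSeries.C a)) = a := by
  rw [cc_apply, AlgEquiv.apply_symm_apply, PowerSeries.constantCoeff_C]

theorem σ_C (p : Proj n K) (a : K) : p.σ (C a) = PowerSeries.C (C a) := by
  have h2 := p.σ.commutes a
  have h3 : algebraMap K (SL n K) a = C a := rfl
  have h4 : algebraMap K (PowerSeries (R1 n K)) a = PowerSeries.C (C a) := by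
    rw [IsScalarTower.algebraMap_apply K (R1 n K) (PowerSeries (R1 n K))]
    rfl
  rw [← h3, h2, h4]

theorem cc_C (p : Proj n K) (a : K) : cc p (C a) = C a := by
  rw [cc_apply, σ_C, PowerSeries.constantCoeff_C]

theorem cc_mem (p : Proj n K) {h : MvPowerSeries (Fin (n + 1)) K}
    (hh : h ∈ IsLocalRing.maximalIdeal (MvPowerSeries (Fin (n + 1)) K)) :
    cc p h ∈ IsLocalRing.maximalIdeal (R1 n K) := by
  rw [IsLocalRing.mem_maximalIdeal, mem_nonunits_iff] at hh ⊢
  intro h1
  apply hh
  have h2 : IsUnit (p.σ h) := PowerSeries.isUnit_iff_constantCoeff.2 h1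
  have h3 := h2.map p.σ.symm
  rwa [AlgEquiv.symm_apply_apply] at h3

theorem cc_pow_mem (p : Proj n K) {h : MvPowerSeries (Fin (n + 1)) K} {k : ℕ}
    (hh : h ∈ IsLocalRing.maximalIdeal (MvPowerSeries (Fin (n + 1)) K) ^ k) :
    cc p h ∈ IsLocalRing.maximalIdeal (R1 n K) ^ k := by
  have h2 : IsLocalRing.maximalIdeal (MvPowerSeries (Fin (n + 1)) K) ≤
      Ideal.comap (cc p) (IsLocalRing.maximalIdeal (R1 n K)) := fun h hh => cc_mem p hh
  exact (Ideal.pow_right_mono h2 k).trans (Ideal.le_comap_pow (cc p) k) hh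

theorem symm_mem (p : Proj n K) {a : R1 n K} (ha : a ∈ IsLocalRing.maximalIdeal (R1 n K)) :
    p.σ.symm (PowerSeries.C a) ∈ IsLocalRing.maximalIdeal (MvPowerSeries (Fin (n + 1)) K) := by
  rw [IsLocalRing.mem_maximalIdeal, mem_nonunits_iff] at ha ⊢
  intro h1
  apply ha
  have h2 := h1.map (cc p)
  rwa [cc_symm_C] at h2

/-- The inclusion of the base ring. -/
noncomputable def inc (p : Proj n K) : R1 n K →+* MvPowerSeries (Fin (n + 1)) K :=
  (p.σ.symm : PowerSeries (R1 n K) →+* SL n K).comp (PowerSeries.C (R := R1 n K))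

theorem inc_apply (p : Proj n K) (a : R1 n K) : inc p a = p.σ.symm (PowerSeries.C a) := rfl

theorem symm_pow_mem (p : Proj n K) {a : R1 n K} {k : ℕ}
    (ha : a ∈ IsLocalRing.maximalIdeal (R1 n K) ^ k) :
    p.σ.symm (PowerSeries.C a) ∈
      IsLocalRing.maximalIdeal (MvPowerSeries (Fin (n + 1)) K) ^ k := by
  have h2 : IsLocalRing.maximalIdeal (R1 n K) ≤
      Ideal.comap (inc p) (IsLocalRing.maximalIdeal (MvPowerSeries (Fin (n + 1)) K)) :=
    fun h hh => symm_mem p hh
  exact (Ideal.pow_right_mono h2 k).trans (Ideal.le_comap_pow (inc p) k) ha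

/-- Coordinates in the base and a function with nonzero derivative along the fibre have
independent linear parts. -/
theorem linIndep_lift (p : Proj n K) {ι : Type} [Fintype ι] {h : ι → R1 n K} (hh : LinIndep h)
    {a : MvPowerSeries (Fin (n + 1)) K}
    (ha : a ∈ IsLocalRing.maximalIdeal (MvPowerSeries (Fin (n + 1)) K)) (hta : p.tr a ≠ 0) :
    LinIndep (fun o : Option ι => o.elim a fun i => p.σ.symm (PowerSeries.C (h i))) := by
  rw [linIndep_iff] at hh ⊢
  obtain ⟨h1, h2⟩ := hh
  refine ⟨fun o => ?_, fun c hc => ?_⟩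
  · cases o with
    | none => exact ha
    | some i => exact symm_mem p (h1 i)
  · rw [Fintype.sum_option] at hc
    change C (c none) * a + ∑ i, C (c (some i)) * p.σ.symm (PowerSeries.C (h i)) ∈ _ at hc
    have hlin : ∀ (b : K) (g : MvPowerSeries (Fin (n + 1)) K) (v : Fin (n + 1) → K),
        lin (C b * g) v = b * lin g v := by
      intro b g v
      unfold lin
      rw [Finset.mul_sum]
      refine Finset.sum_congr rfl fun j _ => ?_
      rw [coeff_C_mul]
      ring
    have hadd : ∀ (g g' : MvPowerSeries (Fin (n + 1)) K), p.tr (g + g') = p.tr g + p.tr g' :=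
      fun g g' => p.tr_add g g'
    have hsum : ∀ s : Finset ι, p.tr (∑ i ∈ s, C (c (some i)) *
        p.σ.symm (PowerSeries.C (h i))) = 0 := by
      classical
      intro s
      induction s using Finset.induction_on with
      | empty =>
        rw [Finset.sum_empty]
        have := hadd 0 0
        rw [add_zero] at this
        exact left_eq_add.1 this
      | insert i s hi ih =>
        rw [Finset.sum_insert hi, hadd, ih, add_zero, Proj.tr_eq_lin, hlin, ← Proj.tr_eq_lin,
          tr_C, mul_zero]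
    have hc0 : c none = 0 := by
      have h3 : p.tr (C (c none) * a + ∑ i, C (c (some i)) *
          p.σ.symm (PowerSeries.C (h i))) = 0 := by
        rw [Proj.tr_eq_lin]
        unfold lin
        refine Finset.sum_eq_zero fun j _ => ?_
        rw [((Pool.Agent.Helper38.ED.LIBasic1_mem_sq_iff _).1 hc).2 j, zero_mul]
      rw [hadd, hsum, add_zero, Proj.tr_eq_lin, hlin, ← Proj.tr_eq_lin] at h3
      exact (mul_eq_zero.1 h3).resolve_right hta
    rw [hc0, map_zero, zero_mul, zero_add] at hc
    have h4 := cc_pow_mem p hc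
    rw [map_sum] at h4
    have h5 : ∀ i, cc p (C (c (some i)) * p.σ.symm (PowerSeries.C (h i))) =
        C (c (some i)) * h i := by
      intro i
      rw [map_mul, cc_C, cc_symm_C]
    simp only [h5] at h4
    have h6 := h2 (fun i => c (some i)) h4
    funext o
    cases o with
    | none => exact hc0
    | some i => exact congrFun h6 i

/-- Two homomorphisms that are congruent modulo an ideal on coordinates are congruent. -/
theorem hom_sub_mem_coords {ι : Type} {h : ι → MvPowerSeries (Fin n) K} (hh : LinIndep h)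
    (e : ι ≃ Fin n) (G G' : MvPowerSeries (Fin n) K →ₐ[K] WS d K) (J : Ideal (WS d K))
    (hJ : ∀ i, G (h i) - G' (h i) ∈ J) (f : MvPowerSeries (Fin n) K) : G f - G' f ∈ J := by
  obtain ⟨τ, hτ⟩ := exists_coords hh e
  have h1 := hom_sub_mem (G.comp (τ : MvPowerSeries (Fin n) K →ₐ[K] _))
    (G'.comp (τ : MvPowerSeries (Fin n) K →ₐ[K] _)) J (fun i => ?_) (τ.symm f)
  · change G (τ (τ.symm f)) - G' (τ (τ.symm f)) ∈ J at h1
    rwa [AlgEquiv.apply_symm_apply] at h1
  · change G (τ (X i)) - G' (τ (X i)) ∈ J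
    have h2 := hτ (e.symm i)
    rw [e.apply_symm_apply] at h2
    rw [h2]
    exact hJ _

/-- The kernel of a homomorphism given by `h k ↦ 0`, `t j ↦ X j`. -/
theorem mem_span_of_eq_zero {κ : Type} [Fintype κ] {h : κ → MvPowerSeries (Fin n) K}
    {t : Fin d → MvPowerSeries (Fin n) K} (hh : LinIndep (Sum.elim h t))
    (e : κ ⊕ Fin d ≃ Fin n) (φ : MvPowerSeries (Fin n) K →ₐ[K] MvPowerSeries (Fin d) K)
    (h0 : ∀ k, φ (h k) = 0) (ht : ∀ j, φ (t j) = X j) {f : MvPowerSeries (Fin n) K}
    (hf : φ f = 0) : f ∈ Ideal.span (Set.range h) := by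
  classical
  obtain ⟨τ, hτ⟩ := exists_coords hh e
  let emb : Fin d ↪ Fin n := ⟨fun j => e (Sum.inr j), fun i j hij =>
    Sum.inr_injective (e.injective hij)⟩
  have key : ((φ : MvPowerSeries (Fin n) K →+* MvPowerSeries (Fin d) K).comp
      (τ : MvPowerSeries (Fin n) K →+* MvPowerSeries (Fin n) K)) =
      (killCompl (R := K) emb : MvPowerSeries (Fin n) K →ₐ[K] MvPowerSeries (Fin d) K) := by
    have hX : ∀ i, φ (τ (X i)) = killCompl (R := K) emb (X i) := by
      intro i
      obtain ⟨i', rfl⟩ := e.surjective i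
      rw [hτ]
      cases i' with
      | inl k =>
        rw [Sum.elim_inl, h0, killCompl_X_eq_zero]
        rintro ⟨j, hj⟩
        have : e (Sum.inr j) = e (Sum.inl k) := hj
        exact Sum.inr_ne_inl (e.injective this)
      | inr j =>
        rw [Sum.elim_inr, ht]
        exact (killCompl_X (e := emb) j).symm
    refine ringHom_ext_of_X _ _ (fun a => ?_) (fun i => hX i) (fun i => ?_)
    · change φ (τ (C a)) = killCompl (R := K) emb (C a)
      have h1 : (C a : MvPowerSeries (Fin n) K) = algebraMap K _ a := rfl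
      rw [h1, AlgEquiv.commutes, AlgHom.commutes, AlgHom.commutes]
    · change φ (τ (X i)) ∈ _
      rw [hX]
      obtain ⟨i', rfl⟩ := e.surjective i
      cases i' with
      | inl k =>
        rw [killCompl_X_eq_zero]
        · exact Ideal.zero_mem _
        · rintro ⟨j, hj⟩
          have : e (Sum.inr j) = e (Sum.inl k) := hj
          exact Sum.inr_ne_inl (e.injective this)
      | inr j =>
        have h3 : killCompl (R := K) emb (X (emb j)) = X j := killCompl_X j
        have h4 : killCompl (R := K) emb (X (e (Sum.inr j))) = X j := h3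
        rw [h4, mem_maximalIdeal_iff_constantCoeff, constantCoeff_X]
  have h1 : killCompl (R := K) emb (τ.symm f) = 0 := by
    have h2 := DFunLike.congr_fun key (τ.symm f)
    change φ (τ (τ.symm f)) = killCompl (R := K) emb (τ.symm f) at h2
    rw [← h2, AlgEquiv.apply_symm_apply, hf]
  have h2 : τ.symm f ∈ coordIdeal K (Finset.univ.image fun k => e (Sum.inl k)) ^ 1 := by
    rw [mem_coordIdeal_pow_iff]
    intro α hα
    have h3 : ∀ k, α (e (Sum.inl k)) = 0 := by
      intro k
      have h4 : (∑ i ∈ (Finset.univ.image fun k => e (Sum.inl k)), α i) = 0 := by omega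
      exact Finset.sum_eq_zero_iff.1 h4 _ (Finset.mem_image_of_mem _ (Finset.mem_univ k))
    have h4 : α ∈ Set.range (Finsupp.embDomain (M := ℕ) emb) := by
      rw [Finsupp.mem_range_embDomain_iff]
      intro i hi
      rw [Finset.mem_coe, Finsupp.mem_support_iff] at hi
      obtain ⟨i', rfl⟩ := e.surjective i
      cases i' with
      | inl k => exact absurd (h3 k) hi
      | inr j => exact ⟨j, rfl⟩
    obtain ⟨x, hx⟩ := h4
    have h5 := coeff_killCompl (e := emb) (τ.symm f) x
    rw [← hx, ← h5, h1, map_zero]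
  rw [pow_one] at h2
  have h3 : τ (τ.symm f) ∈ Ideal.map τ (coordIdeal K (Finset.univ.image fun k => e (Sum.inl k))) :=
    Ideal.mem_map_of_mem _ h2
  rw [AlgEquiv.apply_symm_apply] at h3
  refine (Ideal.map_le_iff_le_comap.2 ?_) h3
  unfold coordIdeal
  rw [Ideal.span_le]
  rintro _ ⟨i, hi, rfl⟩
  rw [Finset.mem_coe, Finset.mem_image] at hi
  obtain ⟨k, -, rfl⟩ := hi
  change τ (X (e (Sum.inl k))) ∈ Ideal.span (Set.range h)
  rw [hτ, Sum.elim_inl]
  exact Ideal.subset_span ⟨k, rfl⟩

end Pool.Agent.Helper80.SP
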