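import Pool.Agent.Helper38.GP.NegA
import Pool.Agent.Helper85.R2.Arc

/-! A projection transversal to a union of smooth germs is transversal to each of them. -/

namespace Pool.Agent.Helper80.SP

open MvPowerSeries Pool.Agent.Helper38.EQ Pool.Agent.Helper38.GP

theorem mem_antidiag {n d : ℕ} (ν : Fin n →₀ ℕ) :
    ν ∈ Finset.univ.finsuppAntidiag d ↔ ν.degree = d := by
  rw [Finset.mem_finsuppAntidiag, Finsupp.degree_eq_sum]
  exact ⟨fun h => h.1, fun h => ⟨h, Finset.subset_univ _⟩⟩

theorem homPart_zero_deg {n : ℕ} {K : Type} [Field K] (h : MvPowerSeries (Fin n) K)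
    (v : Fin n → K) : homPart h 0 v = constantCoeff h := by
  unfold homPart
  rw [Finset.finsuppAntidiag_zero, Finset.sum_singleton]
  simp

theorem homPart_one {n : ℕ} {K : Type} [Field K] (h : MvPowerSeries (Fin n) K)
    (v : Fin n → K) : homPart h 1 v = lin h v := by
  classical
  unfold homPart lin
  have h1 : Finset.univ.finsuppAntidiag 1 =
      (Finset.univ : Finset (Fin n)).image fun j => Finsupp.single j 1 := by
    ext ν
    rw [mem_antidiag, Finset.mem_image]
    constructor
    · intro hν
      obtain ⟨j, hj⟩ : ∃ j, ν j ≠ 0 := by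
        by_contra hcon
        push Not at hcon
        have : ν = 0 := Finsupp.ext hcon
        rw [this, map_zero] at hν
        exact zero_ne_one hν
      refine ⟨j, Finset.mem_univ j, ?_⟩
      rw [Finsupp.degree_eq_sum] at hν
      have h2 : ∑ i, ν i = ν j + ∑ i ∈ Finset.univ.erase j, ν i :=
        (Finset.add_sum_erase _ _ (Finset.mem_univ j)).symm
      ext i
      by_cases hi : i = j
      · rw [hi, Finsupp.single_eq_same]
        omega
      · rw [Finsupp.single_eq_of_ne hi]
        have h3 : ν i ≤ ∑ i ∈ Finset.univ.erase j, ν i :=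
          Finset.single_le_sum (f := fun i => ν i) (fun _ _ => Nat.zero_le _)
            (Finset.mem_erase.2 ⟨hi, Finset.mem_univ i⟩)
        omega
    · rintro ⟨j, -, rfl⟩
      rw [Finsupp.degree_single]
  rw [h1, Finset.sum_image (fun i _ j _ hij => Finsupp.single_left_injective one_ne_zero hij)]
  refine Finset.sum_congr rfl fun j _ => ?_
  congr 1
  rw [Finset.prod_eq_single j]
  · rw [Finsupp.single_eq_same, pow_one]
  · intro i _ hij
    rw [Finsupp.single_eq_of_ne hij, pow_zero]
  · intro hj
    exact absurd (Finset.mem_univ j) hj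

/-- The least part of a product of smooth germs. -/
theorem homPart_prod {n : ℕ} {K : Type} [Field K] (v : Fin n → K) : ∀ (m : ℕ)
    (e : Fin m → MvPowerSeries (Fin n) K) (_ : ∀ i, constantCoeff (e i) = 0),
    (∀ ν : Fin n →₀ ℕ, ν.degree < m → coeff ν (∏ i, e i) = 0) ∧
      homPart (∏ i, e i) m v = ∏ i, lin (e i) v := by
  intro m
  induction m with
  | zero =>
    intro e _
    refine ⟨fun ν hν => absurd hν (Nat.not_lt_zero _), ?_⟩
    rw [homPart_zero_deg, Finset.univ_eq_empty, Finset.prod_empty, Finset.prod_empty, map_one]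
  | succ m ih =>
    intro e he
    obtain ⟨h1, h2⟩ := ih (fun i => e i.castSucc) (fun i => he _)
    have h3 : ∀ ν : Fin n →₀ ℕ, ν.degree < 1 → coeff ν (e (Fin.last m)) = 0 := by
      intro ν hν
      have h4 : ν.degree = 0 := by omega
      rw [Finsupp.degree_eq_zero_iff] at h4
      rw [h4]
      exact he _
    obtain ⟨h4, h5⟩ := homPart_mul h1 h3 v
    rw [Fin.prod_univ_castSucc, Fin.prod_univ_castSucc]
    refine ⟨h4, ?_⟩
    rw [h5, h2, homPart_one]

/-- If all coefficients of degree `d` vanish, so does the part of degree `d`. -/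
theorem homPart_eq_zero' {n d : ℕ} {K : Type} [Field K] {f : MvPowerSeries (Fin n) K}
    (h : ∀ ν : Fin n →₀ ℕ, ν.degree = d → coeff ν f = 0) (v : Fin n → K) : homPart f d v = 0 := by
  unfold homPart
  refine Finset.sum_eq_zero fun ν hν => ?_
  rw [h ν ((mem_antidiag ν).1 hν), zero_mul]

/-- A projection transversal to a union of smooth germs is transversal to each of them. -/
theorem tr_ne_of_transversal {n m : ℕ} {K : Type} [Field K] [Infinite K]
    {z : Fin n → MvPowerSeries (Fin (n + 1)) K} (hz : LinIndep z) (p : Proj n K)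
    (hp : ∀ i, p.σ (z i) = PowerSeries.C (X i)) {e : Fin m → MvPowerSeries (Fin (n + 1)) K}
    (he : ∀ i, e i ∈ IsLocalRing.maximalIdeal (MvPowerSeries (Fin (n + 1)) K) ∧
      e i ∉ IsLocalRing.maximalIdeal (MvPowerSeries (Fin (n + 1)) K) ^ 2)
    (hT : Transversal (∏ i, e i) z) (i : Fin m) : p.tr (e i) ≠ 0 := by
  intro hcon
  obtain ⟨v, d, hv, hd, hne⟩ := hT
  have he0 : ∀ i, constantCoeff (e i) = 0 := fun i =>
    (mem_maximalIdeal_iff_constantCoeff _).1 (he i).1
  have hv0 : v ≠ 0 := by
    rintro rfl
    rcases Nat.eq_zero_or_pos d with rfl | hpos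
    · apply hne
      rw [homPart_zero_deg, map_prod]
      exact Finset.prod_eq_zero (Finset.mem_univ i) (he0 i)
    · apply hne
      unfold homPart
      refine Finset.sum_eq_zero fun ν hν => ?_
      have h1 : ν.degree = d := (mem_antidiag ν).1 hν
      obtain ⟨j, hj⟩ : ∃ j, ν j ≠ 0 := by
        by_contra hc
        push Not at hc
        have : ν = 0 := Finsupp.ext hc
        rw [this, map_zero] at h1
        omega
      rw [Finset.prod_eq_zero (Finset.mem_univ j), mul_zero]
      rw [Pi.zero_apply, zero_pow hj]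
  obtain ⟨c, hc, hcv⟩ := Pool.Agent.Helper85.R2.exists_smul_tr z hz p hp hv hv0
  have hlin : lin (e i) v = 0 := by
    rw [Proj.tr_eq_lin] at hcon
    have h1 : lin (e i) (fun j => p.tr (X j)) = c * lin (e i) v := by
      unfold lin
      rw [Finset.mul_sum]
      refine Finset.sum_congr rfl fun j _ => ?_
      change coeff (Finsupp.single j 1) (e i) * p.tr (X j) = _
      rw [hcv j]
      ring
    rw [h1] at hcon
    exact (mul_eq_zero.1 hcon).resolve_left hc
  obtain ⟨h1, h2⟩ := homPart_prod v m e he0
  rcases lt_trichotomy d m with hlt | heq | hgt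
  · exact hne (homPart_eq_zero' (fun ν hν => h1 ν (by omega)) v)
  · rw [heq, h2] at hne
    exact hne (Finset.prod_eq_zero (Finset.mem_univ i) hlin)
  · obtain ⟨p', hp', -⟩ := exists_lin e he
    obtain ⟨-, h3⟩ := homPart_prod (fun j => p'.tr (X j)) m e he0
    rw [homPart_eq_zero' (fun ν hν => hd ν (by omega))] at h3
    have h4 : ∏ i, lin (e i) (fun j => p'.tr (X j)) ≠ 0 := by
      refine Finset.prod_ne_zero_iff.2 fun i _ => ?_
      rw [← Proj.tr_eq_lin]
      exact hp' i
    exact h4 h3.symm

end Pool.Agent.Helper80.SP
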