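import Pool.Agent.Helper80.SP.Arc
import Pool.Agent.Helper80.SP.Coord
import Pool.Agent.Helper80.SP.Trans
import Pool.Agent.Helper85.SB.Defs
import Pool.Agent.Helper38.ED.Eval
import Pool.Agent.Helper38.GP.CurveA

/-! Auxiliary statements for the double curves of a union of smooth sheets. -/

namespace Pool.Agent.Helper80.SP

open MvPowerSeries Pool.Agent.Helper38.EQ Pool.Agent.Helper38.GP Pool.Agent.Helper85.SB

/-- The constant coefficient in `s`. -/
noncomputable def cs (d : ℕ) (K : Type) [Field K] : WS d K →ₐ[K] MvPowerSeries (Fin d) K :=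
  { PowerSeries.constantCoeff (R := MvPowerSeries (Fin d) K) with
    commutes' := by
      intro c
      have h4 : algebraMap K (WS d K) c = PowerSeries.C (C c) := by
        rw [IsScalarTower.algebraMap_apply K (MvPowerSeries (Fin d) K) (WS d K)]
        rfl
      change PowerSeries.constantCoeff (algebraMap K (WS d K) c) = _
      rw [h4, PowerSeries.constantCoeff_C]
      rfl }

theorem cs_apply {d : ℕ} {K : Type} [Field K] (x : WS d K) :
    cs d K x = PowerSeries.constantCoeff x := rfl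

theorem cs_eq_zero {d : ℕ} {K : Type} [Field K] {x : WS d K} :
    cs d K x = 0 ↔ PowerSeries.X ∣ x := by
  rw [cs_apply, PowerSeries.X_dvd_iff]

/-- A power of `s` up to a unit in the maximal ideal is divisible by `s`. -/
theorem Pw.dvd {d : ℕ} {K : Type} [Field K] {x : WS d K} (h : Pw x)
    (hx : x ∈ IsLocalRing.maximalIdeal (WS d K)) : PowerSeries.X ∣ x := by
  rcases h with rfl | ⟨e, h⟩
  · exact dvd_zero _
  · rcases Nat.eq_zero_or_pos e with rfl | hpos
    · rw [pow_zero] at h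
      exact absurd (associated_one_iff_isUnit.1 h) ((IsLocalRing.mem_maximalIdeal x).1 hx)
    · exact (dvd_pow_self _ hpos.ne').trans h.symm.dvd

/-- The reordering of the coordinates. -/
def eqv (k d : ℕ) : Fin k ⊕ Fin d ≃ Fin (d + k) :=
  (Equiv.sumComm _ _).trans finSumFinEquiv

section

variable {d : ℕ} {K : Type} [Field K] {g : MvPowerSeries (Fin (d + 2)) K}
  {I' : Ideal (MvPowerSeries (Fin (d + 2)) K)}

theorem Fam_x (F : Fam g I') : F.x ∈ I' := F.hI.ge (Ideal.subset_span (Or.inl rfl))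

theorem Fam_y (F : Fam g I') : F.y ∈ I' := F.hI.ge (Ideal.subset_span (Or.inr rfl))

theorem Fam_range (F : Fam g I') : Set.range ![F.x, F.y] = {F.x, F.y} := by
  rw [Matrix.range_cons, Matrix.range_cons, Matrix.range_empty]
  ext a
  simp [or_comm]

theorem Fam_dvd (F : Fam g I') (l : Fin F.N) {f : MvPowerSeries (Fin (d + 2)) K} (hf : f ∈ I') :
    PowerSeries.X ^ F.M ∣ F.G l f := by
  have h1 : Ideal.map (F.G l) (Ideal.span {F.x, F.y}) ≤
      Ideal.span {(PowerSeries.X ^ F.M : WS d K)} := by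
    rw [Ideal.map_span, Ideal.span_le]
    rintro _ ⟨a, ha, rfl⟩
    rcases ha with rfl | ha
    · change F.G l F.x ∈ Ideal.span {(PowerSeries.X ^ F.M : WS d K)}
      rw [F.Gx]
      exact Ideal.mem_span_singleton_self _
    · rw [Set.mem_singleton_iff] at ha
      change F.G l a ∈ Ideal.span {(PowerSeries.X ^ F.M : WS d K)}
      rw [ha, F.Gy]
      exact Ideal.mul_mem_right _ _ (Ideal.mem_span_singleton_self _)
  exact Ideal.mem_span_singleton.1 (h1 (Ideal.mem_map_of_mem _ (F.hI.le hf)))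

theorem Fam_mem (F : Fam g I') (l : Fin F.N) {f : MvPowerSeries (Fin (d + 2)) K}
    (hf : PowerSeries.X ∣ F.G l f) : f ∈ I' := by
  refine F.hI.ge ?_
  rw [← Fam_range F]
  refine mem_span_of_eq_zero F.li (eqv 2 d) ((cs d K).comp (F.G l)) (fun k => ?_) (fun j => ?_) ?_
  · change cs d K (F.G l _) = 0
    rw [cs_eq_zero]
    have hM : (PowerSeries.X : WS d K) ∣ PowerSeries.X ^ F.M :=
      dvd_pow_self _ (Nat.one_le_iff_ne_zero.1 F.hM)
    fin_cases k
    · exact hM.trans (Fam_dvd F l (Fam_x F))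
    · exact hM.trans (Fam_dvd F l (Fam_y F))
  · change cs d K (F.G l _) = X j
    rw [F.Gt, cs_apply, PowerSeries.constantCoeff_C]
  · exact cs_eq_zero.2 hf

theorem Fam_sub (F : Fam g I') (l l' : Fin F.N) (f : MvPowerSeries (Fin (d + 2)) K) :
    F.G l F.y - F.G l' F.y ∣ F.G l f - F.G l' f := by
  refine Ideal.mem_span_singleton.1 (hom_sub_mem_coords F.li (eqv 2 d) (F.G l) (F.G l')
    (Ideal.span {F.G l F.y - F.G l' F.y}) (fun i => ?_) f)
  rcases i with k | j
  · fin_cases k
    · change F.G l F.x - F.G l' F.x ∈ _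
      rw [F.Gx, F.Gx, sub_self]
      exact Ideal.zero_mem _
    · exact Ideal.mem_span_singleton_self _
  · change F.G l (F.t j) - F.G l' (F.t j) ∈ _
    rw [F.Gt, F.Gt, sub_self]
    exact Ideal.zero_mem _

theorem Fam_pw (F : Fam g I') (l l' : Fin F.N) : Pw (F.G l F.y - F.G l' F.y) := by
  by_cases h : l = l'
  · rw [h, sub_self]
    exact Or.inl rfl
  · exact Or.inr (F.diff l l' h)

end

section

variable {n : ℕ} {K : Type} [Field K]

/-- The section with a given root. -/
theorem exists_sec_of_root (p : Proj n K) {τ : R1 n K}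
    (hτ : τ ∈ IsLocalRing.maximalIdeal (R1 n K)) :
    ∃ s : Sec p (p.σ.symm (PowerSeries.X - PowerSeries.C τ)), s.r = τ := by
  obtain ⟨ε, h1, h2, h3⟩ := Pool.Agent.Helper38.ED.exists_eval τ hτ
  exact ⟨⟨τ, hτ, 1, isUnit_one, by rw [ex_eq, AlgEquiv.apply_symm_apply, one_mul], ε, h1, h2, h3⟩,
    rfl⟩

variable {p : Proj n K} {e e' : MvPowerSeries (Fin (n + 1)) K}

/-- The kernel of the restriction to `e = 0`. -/
theorem dvd_of_pull_eq_zero (s : Sec p e) {h : MvPowerSeries (Fin (n + 1)) K}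
    (hh : s.pull h = 0) : e ∣ h := by
  obtain ⟨q, hq⟩ := s.ε_dvd (p.σ h)
  rw [s.pull_apply, ex_eq] at hh
  rw [hh, map_zero, zero_add] at hq
  have h1 := s.eq
  rw [ex_eq] at h1
  obtain ⟨V, hV⟩ := s.isUnit.exists_left_inv
  have h2 : p.σ h = p.σ e * (V * q) := by
    rw [h1, hq]
    linear_combination (- (PowerSeries.X - PowerSeries.C s.r) * q) * hV
  refine ⟨p.σ.symm (V * q), ?_⟩
  apply p.σ.injective
  rw [map_mul, AlgEquiv.apply_symm_apply, h2]

theorem mem_span_pair_iff (s : Sec p e) {h : MvPowerSeries (Fin (n + 1)) K}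
    {a : MvPowerSeries (Fin (n + 1)) K} :
    h ∈ Ideal.span {e, a} ↔ s.pull h ∈ Ideal.span {s.pull a} := by
  constructor
  · intro hh
    obtain ⟨x, y, hxy⟩ := Ideal.mem_span_pair.1 hh
    rw [← hxy, map_add, map_mul, map_mul, s.pull_self, mul_zero, zero_add]
    exact Ideal.mul_mem_left _ _ (Ideal.mem_span_singleton_self _)
  · intro hh
    obtain ⟨c, hc⟩ := Ideal.mem_span_singleton.1 hh
    have h1 : s.pull (h - a * p.σ.symm (PowerSeries.C c)) = 0 := by
      rw [map_sub, map_mul, pull_C, hc, sub_self]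
    obtain ⟨q, hq⟩ := dvd_of_pull_eq_zero s h1
    rw [Ideal.mem_span_pair]
    exact ⟨q, p.σ.symm (PowerSeries.C c), by rw [mul_comm q e, ← hq]; ring⟩

theorem pull_pow_mem (s : Sec p e) {h : MvPowerSeries (Fin (n + 1)) K} {k : ℕ}
    (hh : h ∈ IsLocalRing.maximalIdeal (MvPowerSeries (Fin (n + 1)) K) ^ k ⊔ Ideal.span {e}) :
    s.pull h ∈ IsLocalRing.maximalIdeal (R1 n K) ^ k := by
  obtain ⟨a, ha, b, hb, rfl⟩ := Submodule.mem_sup.1 hh
  obtain ⟨c, rfl⟩ := Ideal.mem_span_singleton.1 hb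
  rw [map_add, map_mul, s.pull_self, zero_mul, add_zero]
  have h2 : IsLocalRing.maximalIdeal (MvPowerSeries (Fin (n + 1)) K) ≤
      Ideal.comap s.pull (IsLocalRing.maximalIdeal (R1 n K)) := fun h hh => s.pull_mem hh
  exact (Ideal.pow_right_mono h2 k).trans (Ideal.le_comap_pow s.pull k) ha

/-- Two sheets with the same restriction to an arc. -/
theorem arc_eq_of {d : ℕ} (δ : MvPowerSeries (Fin n) K →ₐ[K] WS d K) (s : Sec p e)
    (s' : Sec p e') (h : δ s.r - δ s'.r = 0) : arc δ s = arc δ s' := by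
  refine AlgHom.ext fun f => ?_
  have := map_dvd δ (s'.pull_sub_dvd s f)
  rw [map_sub, map_sub, h, zero_dvd_iff, sub_eq_zero] at this
  exact this

theorem arc_eq_zero_iff {d : ℕ} (δ : MvPowerSeries (Fin n) K →ₐ[K] WS d K) (s : Sec p e)
    (s' : Sec p e') : arc δ s e' = 0 ↔ δ s.r - δ s'.r = 0 := by
  rw [arc_apply]
  have h := (s.assoc s').map δ
  rw [map_sub] at h
  exact ⟨fun h1 => (associated_zero_iff_eq_zero _).1 (h1 ▸ h.symm),
    fun h1 => (associated_zero_iff_eq_zero _).1 (h1 ▸ h)⟩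

end

end Pool.Agent.Helper80.SP
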