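import Pool.Agent.Helper80.SP.S2

/-! The double curves of a union of smooth sheets. -/

namespace Pool.Agent.Helper80.SP

open MvPowerSeries Pool.Agent.Helper38.EQ Pool.Agent.Helper38.GP Pool.Agent.Helper85.SB

namespace Data

variable {d m : ℕ} {K : Type} [Field K] {e : Fin m → MvPowerSeries (Fin (d + 3)) K}
  {I : Ideal (MvPowerSeries (Fin (d + 3)) K)} (D : Data e I)

/-- The branch `l` on the sheet `i` is a branch of a double curve. -/
def Dbl (l : Fin D.F.N) (i : Fin m) : Prop :=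
  ∃ j, j ≠ i ∧ D.F.G l (D.s i).r - D.F.G l (D.s j).r = 0

theorem exists_index : ∃ (N : ℕ) (c : Fin N → (MvPowerSeries (Fin (d + 3)) K →ₐ[K] WS d K)),
    Function.Injective c ∧ (∀ k, ∃ l i, D.Dbl l i ∧ c k = D.a l i) ∧
    ∀ l i, D.Dbl l i → ∃ k, c k = D.a l i := by
  classical
  let Λ : Finset (MvPowerSeries (Fin (d + 3)) K →ₐ[K] WS d K) :=
    (Finset.univ.filter fun q : Fin D.F.N × Fin m => D.Dbl q.1 q.2).image fun q => D.a q.1 q.2
  refine ⟨Λ.card, fun k => (Λ.equivFin.symm k : MvPowerSeries (Fin (d + 3)) K →ₐ[K] WS d K),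
    fun k k' h => Λ.equivFin.symm.injective (Subtype.ext h), fun k => ?_, fun l i h => ?_⟩
  · obtain ⟨q, hq, hq'⟩ := Finset.mem_image.1 (Λ.equivFin.symm k).2
    exact ⟨q.1, q.2, (Finset.mem_filter.1 hq).2, hq'.symm⟩
  · have h1 : D.a l i ∈ Λ := Finset.mem_image.2 ⟨(l, i),
      Finset.mem_filter.2 ⟨Finset.mem_univ _, h⟩, rfl⟩
    refine ⟨Λ.equivFin ⟨D.a l i, h1⟩, ?_⟩
    change ((Λ.equivFin.symm (Λ.equivFin ⟨D.a l i, h1⟩) :
      { x // x ∈ Λ }) : MvPowerSeries (Fin (d + 3)) K →ₐ[K] WS d K) = _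
    rw [Equiv.symm_apply_apply]

theorem exists_dbl (l : Fin D.F.N) : ∃ i, D.Dbl l i := by
  obtain ⟨i, j, h1, h2⟩ := D.ex (D.F.G l) (D.F.Gg l)
  exact ⟨i, j, h1, h2⟩

theorem a_inj {l l' : Fin D.F.N} {i i' : Fin m} (h : D.a l i = D.a l' i') : l = l' := by
  by_contra hcon
  obtain ⟨k, hk⟩ := D.F.diff l l' hcon
  have h1 := DFunLike.congr_fun h (D.up D.F.y)
  rw [a_up, a_up] at h1
  rw [h1, sub_self] at hk
  exact pow_ne_zero k PowerSeries.X_ne_zero ((associated_zero_iff_eq_zero _).1 hk.symm)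

theorem a_eq_zero_iff (l : Fin D.F.N) (i j : Fin m) :
    D.a l i (e j) = 0 ↔ D.F.G l (D.s i).r - D.F.G l (D.s j).r = 0 :=
  arc_eq_zero_iff _ _ _

theorem a_eq {l : Fin D.F.N} {i j : Fin m} (h : D.F.G l (D.s i).r - D.F.G l (D.s j).r = 0) :
    D.a l i = D.a l j := arc_eq_of _ _ _ h

theorem exists_curve {N : ℕ} {c : Fin N → (MvPowerSeries (Fin (d + 3)) K →ₐ[K] WS d K)}
    (hinj : Function.Injective c) (h1 : ∀ k, ∃ l i, D.Dbl l i ∧ c k = D.a l i)
    (h2 : ∀ l i, D.Dbl l i → ∃ k, c k = D.a l i) (i j : Fin m) (hij : i ≠ j)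
    (L : Finset (Fin N)) (hL : ∀ k, k ∈ L ↔ c k (e i) = 0 ∧ c k (e j) = 0) :
    ∃ h : MvPowerSeries (Fin (d + 3)) K,
      (Ideal.span {e i, e j}).radical = Ideal.span {e i, h} ∧
      h ∈ IsLocalRing.maximalIdeal (MvPowerSeries (Fin (d + 3)) K) ^ L.card ⊔
        Ideal.span {e i} ∧
      h ∉ IsLocalRing.maximalIdeal (MvPowerSeries (Fin (d + 3)) K) ^ (L.card + 1) ⊔
        Ideal.span {e i} := by
  classical
  obtain ⟨h₀, hr, L₀, hL₀, ho⟩ := D.F.rad _ _ (D.dvd i j hij)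
  have hcard : L₀.card = L.card := by
    have h3 : ∀ l ∈ L₀, ∃ k, c k = D.a l i := by
      intro l hl
      refine h2 l i ⟨j, hij.symm, ?_⟩
      have := (hL₀ l).1 hl
      rwa [map_sub] at this
    choose k hk using h3
    refine Finset.card_bij (fun l hl => k l hl) (fun l hl => ?_) (fun l hl l' hl' h => ?_)
      (fun k' hk' => ?_)
    · rw [hL, hk l hl, a_eq_zero_iff, a_eq_zero_iff, sub_self]
      refine ⟨rfl, ?_⟩
      have := (hL₀ l).1 hl
      rwa [map_sub] at this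
    · have h4 : D.a l i = D.a l' i := by rw [← hk l hl, ← hk l' hl', h]
      exact D.a_inj h4
    · obtain ⟨l, i', hd, hc⟩ := h1 k'
      have h5 := (hL k').1 hk'
      rw [hc, a_eq_zero_iff, a_eq_zero_iff] at h5
      have h6 : D.F.G l (D.s i).r - D.F.G l (D.s j).r = 0 := by
        have : D.F.G l (D.s i).r - D.F.G l (D.s j).r =
            (D.F.G l (D.s i').r - D.F.G l (D.s j).r) -
            (D.F.G l (D.s i').r - D.F.G l (D.s i).r) := by ring
        rw [this, h5.1, h5.2, sub_zero]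
      have hl : l ∈ L₀ := by
        rw [hL₀, map_sub]
        exact h6
      refine ⟨l, hl, hinj ?_⟩
      rw [hk l hl, hc]
      exact (D.a_eq h5.1).symm
  refine ⟨D.up h₀, ?_, ?_, ?_⟩
  · ext h
    rw [Ideal.mem_radical_iff, mem_span_pair_iff (D.s i)]
    have e1 : (D.s i).pull (D.up h₀) = h₀ := pull_C _ _
    rw [e1, ← hr, Ideal.mem_radical_iff]
    refine exists_congr fun n => ?_
    rw [mem_span_pair_iff (D.s i), map_pow]
    have h3 := (D.s i).assoc (D.s j)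
    rw [Ideal.span_singleton_eq_span_singleton.2 h3]
  · refine Ideal.mem_sup_left ?_
    rw [← hcard]
    exact symm_pow_mem D.p ho.1
  · intro hcon
    have h3 := pull_pow_mem (D.s i) hcon
    have e1 : (D.s i).pull (D.up h₀) = h₀ := pull_C _ _
    rw [e1, ← hcard] at h3
    exact ho.2 h3

include D in
theorem exists_sfam : Nonempty (SFam e I) := by
  classical
  obtain ⟨N, c, hinj, h1, h2⟩ := D.exists_index
  -- at least two branches
  have hN : 2 ≤ N := by
    by_contra hcon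
    obtain ⟨i, hi⟩ := D.exists_dbl ⟨0, lt_of_lt_of_le (by norm_num) D.F.two⟩
    obtain ⟨i', hi'⟩ := D.exists_dbl ⟨1, lt_of_lt_of_le (by norm_num) D.F.two⟩
    obtain ⟨k, hk⟩ := h2 _ _ hi
    obtain ⟨k', hk'⟩ := h2 _ _ hi'
    have h3 : k = k' := by
      apply Fin.ext
      omega
    rw [h3, hk'] at hk
    have h4 := congrArg Fin.val (D.a_inj hk)
    exact one_ne_zero h4
  have hu : ∀ k, ∃ u : Fin 3 → WS d K, (∀ j, c k (D.ξ j) = PowerSeries.X ^ D.F.M * u j) ∧
      u 0 = 1 := by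
    intro k
    obtain ⟨l, i, -, hc⟩ := h1 k
    obtain ⟨v, hv⟩ := D.X_dvd_z l i
    refine ⟨![1, D.F.b l, v], fun j => ?_, rfl⟩
    rw [hc]
    fin_cases j
    · change D.a l i (D.up D.F.x) = _ * 1
      rw [a_up, D.F.Gx, mul_one]
    · change D.a l i (D.up D.F.y) = _ * D.F.b l
      rw [a_up, D.F.Gy]
    · exact hv
  choose u hu1 hu0 using hu
  have hw : ∀ k k', ∃ (μ : ℕ) (w : Fin 3 → WS d K), k ≠ k' → (D.F.M ≤ μ ∧
      (∀ j, c k (D.ξ j) - c k' (D.ξ j) = PowerSeries.X ^ μ * w j) ∧ w 0 = 0 ∧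
      (IsUnit (w 1) ∨ IsUnit (w 2))) := by
    intro k k'
    by_cases hkk : k = k'
    · exact ⟨0, 0, fun h => absurd hkk h⟩
    · obtain ⟨l, i, -, hc⟩ := h1 k
      obtain ⟨l', i', -, hc'⟩ := h1 k'
      have hne : D.a l i ≠ D.a l' i' := by
        rw [← hc, ← hc']
        exact fun h => hkk (hinj h)
      obtain ⟨μ, w, h3⟩ := D.exists_diff l l' i i' hne
      refine ⟨μ, w, fun _ => ?_⟩
      rw [hc, hc']
      exact h3
  choose μ w hw using hw
  let L : Fin m → Fin m → Finset (Fin N) := fun i j =>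
    Finset.univ.filter fun k => c k (e i) = 0 ∧ c k (e j) = 0
  have hL : ∀ i j k, k ∈ L i j ↔ c k (e i) = 0 ∧ c k (e j) = 0 := by
    intro i j k
    rw [Finset.mem_filter]
    exact ⟨fun h => h.2, fun h => ⟨Finset.mem_univ _, h⟩⟩
  have hh : ∀ i j, ∃ h : MvPowerSeries (Fin (d + 3)) K, i ≠ j →
      ((Ideal.span {e i, e j}).radical = Ideal.span {e i, h} ∧
      h ∈ IsLocalRing.maximalIdeal (MvPowerSeries (Fin (d + 3)) K) ^ (L i j).card ⊔
        Ideal.span {e i} ∧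
      h ∉ IsLocalRing.maximalIdeal (MvPowerSeries (Fin (d + 3)) K) ^ ((L i j).card + 1) ⊔
        Ideal.span {e i}) := by
    intro i j
    by_cases hij : i = j
    · exact ⟨0, fun h => absurd hij h⟩
    · obtain ⟨h, h3⟩ := D.exists_curve hinj h1 h2 i j hij (L i j) (hL i j)
      exact ⟨h, fun _ => h3⟩
  choose h hh using hh
  refine ⟨{
    N := N
    M := D.F.M
    two := hN
    hM := D.F.hM
    ξ := D.ξ
    t := D.t
    hI := D.hI
    li := D.li
    c := c
    u := u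
    cξ := hu1
    u0 := hu0
    ct := fun k j => ?_
    μ := μ
    w := w
    le_μ := fun k k' hk => (hw k k' hk).1
    diff := fun k k' hk => (hw k k' hk).2.1
    w0 := fun k k' hk => (hw k k' hk).2.2.1
    wunit := fun k k' hk => (hw k k' hk).2.2.2
    he := D.e_mem
    L := L
    mem_L := hL
    h := h
    rad := fun i j hij => (hh i j hij).1
    ord := fun i j hij => (hh i j hij).2
    exists_pair := fun k => ?_ }⟩
  · obtain ⟨l, i, -, hc⟩ := h1 k
    rw [hc]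
    change D.a l i (D.up (D.F.t j)) = _
    rw [a_up, D.F.Gt]
  · obtain ⟨l, i, ⟨j, hj, hd⟩, hc⟩ := h1 k
    refine ⟨i, j, hj.symm, ?_⟩
    rw [hL, hc, a_eq_zero_iff, a_eq_zero_iff, sub_self]
    exact ⟨rfl, hd⟩

end Data

end Pool.Agent.Helper80.SP
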