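import Mathlib

/-!
# Spectrum theorem: Følner sets of a commutative group
-/

set_option autoImplicit false

open Finset Filter

namespace Pool.Agent.Helper80.SP

/-- polynomial growth has steps with small ratio -/
theorem small_step (a : ℕ → ℕ) (d : ℕ) (h0 : 1 ≤ a 0) (hp : ∀ L, a L ≤ (L + 1) ^ d) (e : ℝ)
    (he : 0 < e) : ∃ L, (a (L + 1) : ℝ) ≤ (1 + e) * a L := by
  by_contra hcon
  push Not at hcon
  have h1 : ∀ L, (1 + e) ^ L ≤ (a L : ℝ) := by
    intro L
    induction L with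
    | zero => rw [pow_zero]; exact_mod_cast h0
    | succ L ih =>
      rw [pow_succ, mul_comm]
      exact (mul_le_mul_of_nonneg_left ih (by linarith)).trans (hcon L).le
  have h2 := tendsto_pow_const_div_const_pow_of_one_lt d (show (1 : ℝ) < 1 + e by linarith)
  have h3 : ∀ᶠ n : ℕ in atTop, (n : ℝ) ^ d / (1 + e) ^ n < 1 / (1 + e) :=
    h2.eventually_lt_const (by positivity)
  obtain ⟨n, hn, hn1⟩ := (h3.and (eventually_ge_atTop 1)).exists
  obtain ⟨L, rfl⟩ : ∃ L, n = L + 1 := ⟨n - 1, by omega⟩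
  have h4 : (1 + e) ^ L ≤ ((L : ℝ) + 1) ^ d := by
    refine (h1 L).trans ?_
    exact_mod_cast hp L
  rw [div_lt_div_iff₀ (by positivity) (by positivity), pow_succ] at hn
  push_cast at hn
  nlinarith [show (0 : ℝ) < 1 + e by linarith]

/-- **(P1)** Følner sets -/
theorem folner {G : Type} [CommGroup G] [DecidableEq G] (F : Finset G) (e : ℝ) (he : 0 < e) :
    ∃ S : Finset G, S.Nonempty ∧
      ∀ g ∈ F, (1 - e) * (#S : ℝ) ≤ (#(S.filter (fun s => s * g ∈ S)) : ℝ) := by
  classical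
  obtain ⟨S, hS⟩ : ∃ S : ℕ → Finset G, S = fun L =>
    (Fintype.piFinset fun _ : F => range (L + 1)).image fun k => ∏ g : F, (g : G) ^ k g :=
    ⟨_, rfl⟩
  have hmem : ∀ L s, s ∈ S L ↔ ∃ k : F → ℕ, (∀ g, k g < L + 1) ∧ ∏ g : F, (g : G) ^ k g = s := by
    intro L s
    rw [hS]
    simp only [mem_image, Fintype.mem_piFinset, mem_range]
  have hone : ∀ L, (1 : G) ∈ S L := by
    intro L
    rw [hmem]
    exact ⟨fun _ => 0, fun _ => Nat.succ_pos L, by simp⟩
  have hcard : ∀ L, #(S L) ≤ (L + 1) ^ #F := by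
    intro L
    rw [hS]
    refine card_image_le.trans (le_of_eq ?_)
    rw [Fintype.card_piFinset]
    simp
  have hmono : ∀ L, S L ⊆ S (L + 1) := by
    intro L s hs
    rw [hmem] at hs ⊢
    obtain ⟨k, hk, hks⟩ := hs
    exact ⟨k, fun g => (hk g).trans (Nat.lt_succ_self _), hks⟩
  have hmul : ∀ L, ∀ s ∈ S L, ∀ g ∈ F, s * g ∈ S (L + 1) := by
    intro L s hs g hg
    rw [hmem] at hs ⊢
    obtain ⟨k, hk, hks⟩ := hs
    refine ⟨Function.update k ⟨g, hg⟩ (k ⟨g, hg⟩ + 1), fun h => ?_, ?_⟩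
    · by_cases hh : h = ⟨g, hg⟩
      · rw [hh, Function.update_self]
        have := hk ⟨g, hg⟩
        omega
      · rw [Function.update_of_ne hh]
        have := hk h
        omega
    · rw [← hks, ← mul_prod_erase univ _ (mem_univ (⟨g, hg⟩ : F)),
        ← mul_prod_erase univ (fun h : F => (h : G) ^ k h) (mem_univ (⟨g, hg⟩ : F))]
      rw [Function.update_self, pow_succ]
      have h1 : ∏ h ∈ univ.erase (⟨g, hg⟩ : F),
          (h : G) ^ (Function.update k ⟨g, hg⟩ (k ⟨g, hg⟩ + 1) h) =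
          ∏ h ∈ univ.erase (⟨g, hg⟩ : F), (h : G) ^ k h := by
        refine prod_congr rfl fun h hh => ?_
        rw [Function.update_of_ne (ne_of_mem_erase hh)]
      rw [h1]
      simp only
      rw [mul_assoc, mul_assoc, mul_comm g]
  obtain ⟨L, hL⟩ := small_step (fun L => #(S L)) #F
    (card_pos.2 ⟨1, hone 0⟩) hcard e he
  refine ⟨S L, ⟨1, hone L⟩, fun g hg => ?_⟩
  have h1 : #((S L).filter (fun s => ¬ s * g ∈ S L)) ≤ #(S (L + 1) \ S L) := by
    refine card_le_card_of_injOn (fun s => s * g) ?_ ?_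
    · intro s hs
      have hs' := mem_filter.1 (mem_coe.1 hs)
      exact mem_coe.2 (mem_sdiff.2 ⟨hmul L s hs'.1 g hg, hs'.2⟩)
    · intro s _ s' _ h
      exact mul_right_cancel h
  have h2 := card_filter_add_card_filter_not (s := S L) (fun s => s * g ∈ S L)
  have h3 : #(S (L + 1) \ S L) = #(S (L + 1)) - #(S L) := card_sdiff_of_subset (hmono L)
  have h4 : #(S L) ≤ #(S (L + 1)) := card_le_card (hmono L)
  have h5 : (#((S L).filter (fun s => ¬ s * g ∈ S L)) : ℝ) ≤ (#(S (L + 1)) : ℝ) - #(S L) := by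
    rw [← Nat.cast_sub h4]
    rw [h3] at h1
    exact_mod_cast h1
  have h6 : (#((S L).filter (fun s => s * g ∈ S L)) : ℝ) +
      #((S L).filter (fun s => ¬ s * g ∈ S L)) = #(S L) := by exact_mod_cast h2
  linarith

end Pool.Agent.Helper80.SP
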