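import Pool.Agent.Helper80.SP.Final
import Pool.Agent.Helper80.SP.Folner
import Pool.Agent.Helper38.SP.One

/-!
# Spectrum theorem: the one scale theorem with Følner sets
-/

set_option autoImplicit false

open Finset Filter

namespace Pool.Agent.Helper80.SP

open Pool.Agent.Helper38.SP (PosDef)

theorem oneScale_all : OneScale := by
  classical
  intro Z φ h1 hpd M hM
  refine ⟨4 * (M + 9), fun F hF s hs0 => ?_⟩
  -- Følner sets in `Z`
  have key : ∀ F : Finset Circle, (∀ z ∈ F, z ∈ Z) → ∀ s : ℕ, 0 < s → ∀ᶠ j : ℕ in atTop,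
      ∃ B : Finset ℕ, GoodS φ F (4 * (M + 9)) s j B := by
    intro F hF s hs
    have hs0 : (0 : ℝ) < s := by exact_mod_cast hs
    obtain ⟨S, hSne, hS⟩ := folner (G := Z) (F.subtype fun z => z ∈ Z) (1 / (2 * s))
      (by positivity)
    refine Pool.Agent.Helper38.SP.oneScale Z φ hpd h1 hM F hF s hs
      (S.map ⟨Subtype.val, Subtype.val_injective⟩) (hSne.map) (fun t ht => ?_) fun z hz => ?_
    · rw [Finset.mem_map] at ht
      obtain ⟨w, _, rfl⟩ := ht
      exact w.2
    · have h2 := hS ⟨z, hF z hz⟩ (mem_subtype.2 hz)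
      rw [card_map]
      refine h2.trans ?_
      have h3 : #(S.filter fun t => t * (⟨z, hF z hz⟩ : Z) ∈ S) ≤
          #((S.map ⟨Subtype.val, Subtype.val_injective⟩).filter
            fun t => t * z ∈ S.map ⟨Subtype.val, Subtype.val_injective⟩) := by
        refine card_le_card_of_injOn (fun t : Z => (t : Circle)) ?_ ?_
        · intro t ht
          have ht' := mem_filter.1 (mem_coe.1 ht)
          refine mem_coe.2 (mem_filter.2 ⟨?_, ?_⟩)
          · exact Finset.mem_map.2 ⟨t, ht'.1, rfl⟩
          · exact Finset.mem_map.2 ⟨t * ⟨z, hF z hz⟩, ht'.2, rfl⟩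
        · intro a _ b _ h
          exact Subtype.val_injective h
      exact_mod_cast h3
  rcases Nat.eq_zero_or_pos s with rfl | hs
  · rw [hs0 rfl]
    filter_upwards [key ∅ (fun z hz => absurd hz (notMem_empty z)) 1 one_pos] with j hj
    obtain ⟨B, h2, h3, h4, h5, _⟩ := hj
    exact ⟨B, h2, h3, h4, h5, fun z hz => absurd hz (notMem_empty z)⟩
  · exact key F hF s hs

end Pool.Agent.Helper80.SP
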