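import Pool.Agent.Helper80.SP.Diff

/-! Arcs in the sheets of a union of smooth germs. -/

namespace Pool.Agent.Helper80.SP

open MvPowerSeries Pool.Agent.Helper38.EQ Pool.Agent.Helper38.GP

variable {n d : ℕ} {K : Type} [Field K] {p : Proj n K} {e e' : MvPowerSeries (Fin (n + 1)) K}

/-- The arc in the sheet `e = 0` over the arc `δ` in the base. -/
noncomputable def arc (δ : MvPowerSeries (Fin n) K →ₐ[K] WS d K) (s : Sec p e) :
    MvPowerSeries (Fin (n + 1)) K →ₐ[K] WS d K :=
  { (δ : MvPowerSeries (Fin n) K →+* WS d K).comp s.pull with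
    commutes' := by
      intro c
      have h1 : algebraMap K (MvPowerSeries (Fin (n + 1)) K) c = C c := rfl
      have h2 : s.pull (C c) = C c := by
        rw [← s.ev_ex, ex_eq, s.ev_C]
      change δ (s.pull (algebraMap K (MvPowerSeries (Fin (n + 1)) K) c)) = _
      rw [h1, h2]
      exact δ.commutes c }

theorem arc_apply (δ : MvPowerSeries (Fin n) K →ₐ[K] WS d K) (s : Sec p e)
    (f : MvPowerSeries (Fin (n + 1)) K) : arc δ s f = δ (s.pull f) := rfl

theorem pull_C (s : Sec p e) (y : R1 n K) : s.pull (p.σ.symm (PowerSeries.C y)) = y := by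
  rw [s.pull_apply, ex_eq, AlgEquiv.apply_symm_apply, s.ε_C]

theorem pull_X (s : Sec p e) : s.pull (p.σ.symm PowerSeries.X) = s.r := by
  rw [s.pull_apply, ex_eq, AlgEquiv.apply_symm_apply, s.ε_X]

theorem arc_C (δ : MvPowerSeries (Fin n) K →ₐ[K] WS d K) (s : Sec p e) (y : R1 n K) :
    arc δ s (p.σ.symm (PowerSeries.C y)) = δ y := by
  rw [arc_apply, pull_C]

theorem arc_X (δ : MvPowerSeries (Fin n) K →ₐ[K] WS d K) (s : Sec p e) :
    arc δ s (p.σ.symm PowerSeries.X) = δ s.r := by
  rw [arc_apply, pull_X]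

theorem arc_self (δ : MvPowerSeries (Fin n) K →ₐ[K] WS d K) (s : Sec p e) : arc δ s e = 0 := by
  rw [arc_apply, s.pull_self, map_zero]

/-- Two arcs in sheets. -/
theorem arc_sub {δ δ' : MvPowerSeries (Fin n) K →ₐ[K] WS d K} (s : Sec p e) (s' : Sec p e')
    {Y : R1 n K} (hY : ∀ f, δ Y - δ' Y ∣ δ f - δ' f) (h1 : Pw (δ Y - δ' Y))
    (h2 : Pw (δ s.r - δ s'.r)) :
    arc δ s = arc δ' s' ∨ ∃ μ, (∀ f, PowerSeries.X ^ μ ∣ arc δ s f - arc δ' s' f) ∧
      (Associated (δ Y - δ' Y) (PowerSeries.X ^ μ) ∨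
        (∀ f, PowerSeries.X ^ (μ + 1) ∣ δ f - δ' f) ∧
        Associated (δ s.r - δ' s'.r) (PowerSeries.X ^ μ)) := by
  have e1 : ∀ f, arc δ s f - arc δ' s' f =
      (δ (s.pull f) - δ (s'.pull f)) + (δ (s'.pull f) - δ' (s'.pull f)) := by
    intro f
    rw [arc_apply, arc_apply]
    ring
  have e2 : ∀ f, δ s.r - δ s'.r ∣ δ (s.pull f) - δ (s'.pull f) := by
    intro f
    have := map_dvd δ (s'.pull_sub_dvd s f)
    rwa [map_sub, map_sub] at this
  rcases h1 with h1 | ⟨q, h1⟩
  · have hδ : ∀ f, δ f = δ' f := fun f => by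
      have := hY f
      rw [h1, zero_dvd_iff] at this
      exact sub_eq_zero.1 this
    rcases h2 with h2 | ⟨κ, h2⟩
    · left
      refine AlgHom.ext fun f => ?_
      have h3 := e2 f
      rw [h2, zero_dvd_iff] at h3
      have h4 := e1 f
      rw [h3, hδ (s'.pull f), sub_self, add_zero] at h4
      exact sub_eq_zero.1 h4
    · right
      refine ⟨κ, fun f => ?_, Or.inr ⟨fun f => ?_, ?_⟩⟩
      · rw [e1, ← hδ (s'.pull f), sub_self, add_zero]
        exact h2.symm.dvd.trans (e2 f)
      · rw [hδ f, sub_self]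
        exact dvd_zero _
      · rw [← hδ s'.r]
        exact h2
  · have hq : ∀ f, PowerSeries.X ^ q ∣ δ f - δ' f := fun f => h1.symm.dvd.trans (hY f)
    by_cases hc : PowerSeries.X ^ q ∣ δ s.r - δ s'.r
    · right
      refine ⟨q, fun f => ?_, Or.inl h1⟩
      rw [e1]
      exact dvd_add (hc.trans (e2 f)) (hq _)
    · rcases h2 with h2 | ⟨κ, h2⟩
      · exact absurd (h2 ▸ dvd_zero _) hc
      · have hlt : κ < q := by
          by_contra hcon
          push Not at hcon
          exact hc ((pow_dvd_pow _ hcon).trans h2.symm.dvd)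
        right
        refine ⟨κ, fun f => ?_, Or.inr ⟨fun f => (pow_dvd_pow _ hlt).trans (hq f), ?_⟩⟩
        · rw [e1]
          exact dvd_add (h2.symm.dvd.trans (e2 f)) ((pow_dvd_pow _ hlt.le).trans (hq _))
        · have e3 : δ s.r - δ' s'.r = (δ s.r - δ s'.r) + (δ s'.r - δ' s'.r) := by ring
          obtain ⟨c, hc'⟩ := (pow_dvd_pow PowerSeries.X hlt).trans (hq s'.r)
          obtain ⟨u, hu⟩ := h2.symm
          rw [e3, hc', ← hu]
          have e4 : (PowerSeries.X ^ κ * (u : WS d K) + PowerSeries.X ^ (κ + 1) * c : WS d K) =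
              ((u : WS d K) + PowerSeries.X * c) * PowerSeries.X ^ κ := by ring
          rw [e4]
          refine associated_unit_mul_left _ _ ?_
          rw [PowerSeries.isUnit_iff_constantCoeff, map_add, map_mul,
            PowerSeries.constantCoeff_X, zero_mul, add_zero]
          exact PowerSeries.isUnit_iff_constantCoeff.1 u.isUnit

end Pool.Agent.Helper80.SP
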