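import Pool.Agent.Helper80.SP.Pw

/-! Differences of the values of two homomorphisms. -/

namespace Pool.Agent.Helper80.SP

open MvPowerSeries Pool.Agent.Helper38.EQ Pool.Agent.Helper38.GP

/-- The constant coefficient. -/
noncomputable def cW (d : ℕ) (K : Type) [Field K] : WS d K →ₐ[K] K :=
  { (constantCoeff (σ := Fin d) (R := K)).comp
      (PowerSeries.constantCoeff (R := MvPowerSeries (Fin d) K)) with
    commutes' := by
      intro c
      have h4 : algebraMap K (WS d K) c = PowerSeries.C (C c) := by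
        rw [IsScalarTower.algebraMap_apply K (MvPowerSeries (Fin d) K) (WS d K)]
        rfl
      change constantCoeff (PowerSeries.constantCoeff (algebraMap K (WS d K) c)) = _
      rw [h4, PowerSeries.constantCoeff_C, constantCoeff_C]
      rfl }

theorem cW_apply {d : ℕ} {K : Type} [Field K] (x : WS d K) :
    cW d K x = constantCoeff (PowerSeries.constantCoeff x) := rfl

theorem hom_mem_W {n d : ℕ} {K : Type} [Field K] (G : MvPowerSeries (Fin n) K →ₐ[K] WS d K)
    {x : MvPowerSeries (Fin n) K}
    (hx : x ∈ IsLocalRing.maximalIdeal (MvPowerSeries (Fin n) K)) :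
    G x ∈ IsLocalRing.maximalIdeal (WS d K) := hom_mem (cW d K) G hx

/-- Two homomorphisms that are congruent modulo an ideal on the variables are congruent. -/
theorem hom_sub_mem {n d : ℕ} {K : Type} [Field K]
    (G G' : MvPowerSeries (Fin n) K →ₐ[K] WS d K) (J : Ideal (WS d K))
    (h : ∀ i, G (X i) - G' (X i) ∈ J) (f : MvPowerSeries (Fin n) K) : G f - G' f ∈ J := by
  by_cases hJ : J = ⊤
  · rw [hJ]; exact Submodule.mem_top
  have hnt : Nontrivial (WS d K ⧸ J) := Ideal.Quotient.nontrivial_iff.2 hJ
  have hloc : IsLocalRing (WS d K ⧸ J) :=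
    IsLocalRing.of_surjective' (Ideal.Quotient.mk J) Ideal.Quotient.mk_surjective
  have key : (Ideal.Quotient.mkₐ K J).comp G = (Ideal.Quotient.mkₐ K J).comp G' := by
    refine hom_ext _ _ (fun i => ?_) (fun i => ?_)
    · rw [IsLocalRing.mem_maximalIdeal, mem_nonunits_iff]
      intro hu
      have h1 : IsUnit (G (X i)) := by
        obtain ⟨y, hy⟩ := hu.exists_right_inv
        obtain ⟨y', rfl⟩ := Ideal.Quotient.mk_surjective y
        have h2 : G (X i) * y' - 1 ∈ J := by
          rw [← Ideal.Quotient.eq, map_mul, map_one]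
          exact hy
        have h3 := IsLocalRing.le_maximalIdeal hJ h2
        by_contra hcon
        have h4 : G (X i) * y' ∈ IsLocalRing.maximalIdeal (WS d K) :=
          Ideal.mul_mem_right _ _ ((IsLocalRing.mem_maximalIdeal _).2 hcon)
        have h5 := Ideal.sub_mem _ h4 h3
        rw [sub_sub_cancel] at h5
        exact (IsLocalRing.mem_maximalIdeal _).1 h5 isUnit_one
      have h2 := hom_mem_W G (x := X i)
        ((mem_maximalIdeal_iff_constantCoeff _).2 (constantCoeff_X _))
      exact (IsLocalRing.mem_maximalIdeal _).1 h2 h1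
    · exact Ideal.Quotient.eq.2 (h i)
  have h1 := DFunLike.congr_fun key f
  exact Ideal.Quotient.eq.1 h1

/-- The same with the coordinates of a projection. -/
theorem hom_sub_mem' {n d : ℕ} {K : Type} [Field K] (q : Proj n K)
    (G G' : MvPowerSeries (Fin (n + 1)) K →ₐ[K] WS d K) (J : Ideal (WS d K))
    (hX : G (q.σ.symm PowerSeries.X) - G' (q.σ.symm PowerSeries.X) ∈ J)
    (h : ∀ i, G (q.σ.symm (PowerSeries.C (X i))) - G' (q.σ.symm (PowerSeries.C (X i))) ∈ J)
    (f : MvPowerSeries (Fin (n + 1)) K) : G f - G' f ∈ J := by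
  -- conjugate with the standard coordinates
  let τ : MvPowerSeries (Fin (n + 1)) K ≃ₐ[K] MvPowerSeries (Fin (n + 1)) K :=
    (finSuccEquiv K n).trans q.σ.symm
  have h1 := hom_sub_mem (G.comp (τ : MvPowerSeries (Fin (n + 1)) K →ₐ[K] _))
    (G'.comp (τ : MvPowerSeries (Fin (n + 1)) K →ₐ[K] _)) J (fun i => ?_) (τ.symm f)
  · have h2 : (G.comp (τ : MvPowerSeries (Fin (n + 1)) K →ₐ[K] _)) (τ.symm f) = G f := by
      change G (τ (τ.symm f)) = G f
      rw [AlgEquiv.apply_symm_apply]
    have h3 : (G'.comp (τ : MvPowerSeries (Fin (n + 1)) K →ₐ[K] _)) (τ.symm f) = G' f := by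
      change G' (τ (τ.symm f)) = G' f
      rw [AlgEquiv.apply_symm_apply]
    rwa [h2, h3] at h1
  · change G (q.σ.symm (finSuccEquiv K n (X i))) - G' (q.σ.symm (finSuccEquiv K n (X i))) ∈ J
    induction i using Fin.cases with
    | zero =>
      rw [finSuccEquiv_X_zero]
      exact hX
    | succ i =>
      rw [finSuccEquiv_X_succ]
      exact h i

end Pool.Agent.Helper80.SP
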