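import Pool.Agent.Helper80.SP.Compact
import Pool.Agent.Helper80.SP.Weights

/-!
# Spectrum theorem: necessity
-/

set_option autoImplicit false

open Finset Filter
open scoped ComplexConjugate

namespace Pool.Agent.Helper80.SP

open Pool.Agent.Helper25.RC (below mem_below rep repF)

/-- the mean square of a trigonometric polynomial -/
theorem meanSquare (T : Finset Circle) : ∃ C : ℝ, 0 ≤ C ∧
    ∀ g : Circle → ℂ, (∀ z ∈ T, ‖g z‖ ≤ 1) → ∀ Y : ℕ,
      ∑ n ∈ range Y, ‖∑ z ∈ T, g z * (z : ℂ) ^ n‖ ^ 2 ≤ Y * ∑ z ∈ T, ‖g z‖ ^ 2 + C := by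
  classical
  obtain ⟨K, hK⟩ : ∃ K, K = ∑ z ∈ T, ∑ z' ∈ T, cs (z * z'⁻¹) := ⟨_, rfl⟩
  have hK0 : 0 ≤ K := by
    rw [hK]
    exact sum_nonneg fun _ _ => sum_nonneg fun _ _ => cs_nonneg _
  refine ⟨K, hK0, fun g hg Y => ?_⟩
  have h1 : ((∑ n ∈ range Y, ‖∑ z ∈ T, g z * (z : ℂ) ^ n‖ ^ 2 : ℝ) : ℂ) = ∑ z ∈ T, ∑ z' ∈ T,
      g z * conj (g z') * ∑ n ∈ range Y, ((z * z'⁻¹ : Circle) : ℂ) ^ n := by
    push_cast
    have h2 : ∀ n ∈ range Y, ((‖∑ z ∈ T, g z * (z : ℂ) ^ n‖ : ℂ)) ^ 2 = ∑ z ∈ T, ∑ z' ∈ T,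
        g z * conj (g z') * ((z * z'⁻¹ : Circle) : ℂ) ^ n := by
      intro n _
      rw [← Complex.mul_conj', map_sum, sum_mul_sum]
      refine sum_congr rfl fun z _ => sum_congr rfl fun z' _ => ?_
      rw [map_mul, map_pow (starRingEnd ℂ) (z' : ℂ) n, ← Circle.coe_inv_eq_conj,
        Circle.coe_mul, mul_pow]
      ring
    rw [sum_congr rfl h2, sum_comm]
    simp_rw [mul_sum]
    exact sum_congr rfl fun z _ => sum_comm
  have h3 : (((Y * ∑ z ∈ T, ‖g z‖ ^ 2 : ℝ)) : ℂ) = ∑ z ∈ T, ∑ z' ∈ T,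
      g z * conj (g z') * (if z = z' then ((Y : ℕ) : ℂ) else 0) := by
    push_cast
    rw [mul_sum]
    refine sum_congr rfl fun z hz => ?_
    simp only [mul_ite, mul_zero]
    rw [sum_ite_eq T z, if_pos hz]
    have h4 : ((‖g z‖ : ℂ)) ^ 2 = g z * conj (g z) := (Complex.mul_conj' _).symm
    rw [h4]
    ring
  have h5 : ‖((∑ n ∈ range Y, ‖∑ z ∈ T, g z * (z : ℂ) ^ n‖ ^ 2 : ℝ) : ℂ) -
      (((Y * ∑ z ∈ T, ‖g z‖ ^ 2 : ℝ)) : ℂ)‖ ≤ K := by
    rw [h1, h3, ← sum_sub_distrib, hK]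
    refine (norm_sum_le _ _).trans (sum_le_sum fun z hz => ?_)
    rw [← sum_sub_distrib]
    refine (norm_sum_le _ _).trans (sum_le_sum fun z' hz' => ?_)
    rw [← mul_sub, norm_mul, norm_mul, RCLike.norm_conj]
    have h6 : ‖g z‖ * ‖g z'‖ ≤ 1 := by
      have := mul_le_mul (hg z hz) (hg z' hz') (norm_nonneg _) zero_le_one
      linarith
    have h7 : ‖∑ n ∈ range Y, ((z * z'⁻¹ : Circle) : ℂ) ^ n -
        (if z = z' then ((Y : ℕ) : ℂ) else 0)‖ ≤ cs (z * z'⁻¹) := by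
      by_cases h : z = z'
      · rw [if_pos h, ← h, mul_inv_cancel]
        simp [cs]
      · rw [if_neg h, sub_zero]
        exact geom_le _ (fun h8 => h (mul_inv_eq_one.1 h8)) _
    calc ‖g z‖ * ‖g z'‖ * _ ≤ 1 * cs (z * z'⁻¹) :=
          mul_le_mul h6 h7 (norm_nonneg _) zero_le_one
      _ = _ := one_mul _
  rw [← Complex.ofReal_sub, Complex.norm_real, Real.norm_eq_abs] at h5
  have := (abs_le.1 h5).2
  linarith

/-- the square of the mean, through the representation function -/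
theorem mean_sq (A : Set ℕ) (x : ℕ) (z : Circle) :
    mean A x z ^ 2 = (∑ n ∈ range (2 * x), (repF (below A x) n : ℂ) * (z : ℂ) ^ n) /
      (#(below A x) : ℂ) ^ 2 := by
  classical
  unfold mean
  rw [div_pow]
  congr 1
  rw [sq, sum_mul_sum, ← sum_product']
  have hmaps : ∀ u ∈ below A x ×ˢ below A x, u.1 + u.2 ∈ range (2 * x) := by
    intro u hu
    rw [mem_product, mem_below, mem_below] at hu
    rw [mem_range]
    omega
  rw [← sum_fiberwise_of_maps_to hmaps]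
  refine sum_congr rfl fun n _ => ?_
  unfold repF
  rw [← nsmul_eq_mul, ← sum_const]
  refine sum_congr rfl fun u hu => ?_
  rw [← pow_add, (mem_filter.1 hu).2]

/-- **(P7)** necessity -/
theorem necS (F : Filter ℕ) [F.NeBot] (hF : F ≤ atTop) (A : Set ℕ) (K d : ℝ) (hd : 0 < d)
    (hA : ∀ᶠ x : ℕ in F, d * √x < #(below A x))
    (hK : ∀ᶠ x : ℕ in atTop, ∑ n ∈ range x, (rep A n : ℝ) ^ 2 ≤ K * x) (T : Finset Circle)
    (phi : Circle → ℂ)
    (hlim : ∀ z ∈ T, Tendsto (fun x : ℕ => (∑ a ∈ below A x, (z : ℂ) ^ a) / #(below A x)) F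
      (nhds (phi z))) :
    ∑ z ∈ T, ‖phi z‖ ^ 4 ≤ 4 * K / d ^ 4 := by
  classical
  obtain ⟨C, hC0, hC⟩ := meanSquare T
  have ht : Tendsto (fun x : ℕ => 2 * x) atTop atTop :=
    tendsto_atTop_mono (fun x => by show x ≤ 2 * x; omega) tendsto_id
  obtain ⟨S, hS⟩ : ∃ S : ℕ → ℝ, S = fun x => ∑ z ∈ T, ‖mean A x z‖ ^ 4 := ⟨_, rfl⟩
  have hSlim : Tendsto S F (nhds (∑ z ∈ T, ‖phi z‖ ^ 4)) := by
    rw [hS]
    exact tendsto_finsetSum _ fun z hz => ((hlim z hz).norm).pow 4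
  -- the inequality for one `x`
  have hineq : ∀ᶠ x : ℕ in F, S x ^ 2 ≤ 4 * K / d ^ 4 * S x + 2 * K * C / d ^ 4 * (x : ℝ)⁻¹ := by
    filter_upwards [hA, (ht.eventually hK).filter_mono hF,
      (eventually_ge_atTop 1).filter_mono hF] with x h1 h2 h3
    have hx0 : (0 : ℝ) < x := by exact_mod_cast (by omega : 0 < x)
    have hN0 : (0 : ℝ) < #(below A x) := lt_of_le_of_lt (by positivity) h1
    have hNne : ((#(below A x) : ℕ) : ℂ) ≠ 0 := by
      have : (#(below A x) : ℕ) ≠ 0 := by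
        intro h0
        rw [h0, Nat.cast_zero] at hN0
        exact lt_irrefl _ hN0
      exact_mod_cast this
    have hS0 : 0 ≤ S x := by
      rw [hS]
      exact sum_nonneg fun _ _ => by positivity
    obtain ⟨g, hg⟩ : ∃ g : Circle → ℂ, g = fun z => conj (mean A x z ^ 2) := ⟨_, rfl⟩
    have hg1 : ∀ z ∈ T, ‖g z‖ ≤ 1 := by
      intro z _
      rw [hg]
      simp only
      rw [RCLike.norm_conj, norm_pow]
      exact pow_le_one₀ (norm_nonneg _) (norm_mean_le A x z)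
    have hgS : ∑ z ∈ T, ‖g z‖ ^ 2 = S x := by
      rw [hg, hS]
      refine sum_congr rfl fun z _ => ?_
      simp only
      rw [RCLike.norm_conj, norm_pow]
      ring
    have h4 := hC g hg1 (2 * x)
    rw [hgS] at h4
    push_cast at h4
    -- `S x * N^2 = ∑ r(n) P(n)`
    have h5 : (((S x * (#(below A x) : ℝ) ^ 2 : ℝ)) : ℂ) =
        ∑ n ∈ range (2 * x), (repF (below A x) n : ℂ) * ∑ z ∈ T, g z * (z : ℂ) ^ n := by
      have h6 : ((S x : ℝ) : ℂ) = ∑ z ∈ T, g z * mean A x z ^ 2 := by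
        rw [hS, hg]
        push_cast
        refine sum_congr rfl fun z _ => ?_
        rw [mul_comm (conj (mean A x z ^ 2)), Complex.mul_conj', norm_pow]
        push_cast
        ring
      push_cast
      rw [h6, sum_mul]
      simp_rw [mul_sum]
      rw [sum_comm]
      refine sum_congr rfl fun z _ => ?_
      rw [mean_sq, mul_div_assoc', div_mul_cancel₀ _ (pow_ne_zero 2 hNne), mul_sum]
      refine sum_congr rfl fun n _ => ?_
      ring
    have h6 : S x * (#(below A x) : ℝ) ^ 2 ≤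
        ∑ n ∈ range (2 * x), (repF (below A x) n : ℝ) * ‖∑ z ∈ T, g z * (z : ℂ) ^ n‖ := by
      have h7 : S x * (#(below A x) : ℝ) ^ 2 =
          ‖(((S x * (#(below A x) : ℝ) ^ 2 : ℝ)) : ℂ)‖ := by
        rw [Complex.norm_real, Real.norm_eq_abs, abs_of_nonneg (by positivity)]
      rw [h7, h5]
      refine (norm_sum_le _ _).trans (le_of_eq (sum_congr rfl fun n _ => ?_))
      rw [norm_mul, Complex.norm_natCast]
    have h8 := sum_mul_sq_le_sq_mul_sq (range (2 * x)) (fun n => (repF (below A x) n : ℝ))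
      (fun n => ‖∑ z ∈ T, g z * (z : ℂ) ^ n‖)
    have h9 : ∑ n ∈ range (2 * x), (repF (below A x) n : ℝ) ^ 2 ≤ K * (2 * x) := by
      have h10 : ∑ n ∈ range (2 * x), (repF (below A x) n : ℝ) ^ 2 ≤
          ∑ n ∈ range (2 * x), (rep A n : ℝ) ^ 2 := by
        refine sum_le_sum fun n _ => ?_
        have : (repF (below A x) n : ℝ) ≤ rep A n := by
          exact_mod_cast Pool.Agent.Helper25.RC.repF_below_le A x n
        gcongr
      refine h10.trans (h2.trans (le_of_eq ?_))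
      push_cast
      ring
    have h11 : (S x * (#(below A x) : ℝ) ^ 2) ^ 2 ≤ K * (2 * x) * (2 * x * S x + C) := by
      refine (pow_le_pow_left₀ (by positivity) h6 2).trans (h8.trans ?_)
      exact mul_le_mul h9 h4 (sum_nonneg fun _ _ => sq_nonneg _)
        (le_trans (sum_nonneg fun n _ => sq_nonneg _) h9)
    have h12 : d ^ 4 * (x : ℝ) ^ 2 ≤ (#(below A x) : ℝ) ^ 4 := by
      calc d ^ 4 * (x : ℝ) ^ 2 = (d * √x) ^ 4 := by
            rw [mul_pow]
            congr 1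
            calc (x : ℝ) ^ 2 = ((√(x : ℝ)) ^ 2) ^ 2 := by rw [Real.sq_sqrt hx0.le]
              _ = _ := by ring
        _ ≤ _ := pow_le_pow_left₀ (by positivity) h1.le 4
    have h13 : S x ^ 2 * (d ^ 4 * (x : ℝ) ^ 2) ≤ K * (2 * x) * (2 * x * S x + C) := by
      refine le_trans (mul_le_mul_of_nonneg_left h12 (sq_nonneg _)) ?_
      refine le_trans (le_of_eq ?_) h11
      ring
    have hd4 : 0 < d ^ 4 := by positivity
    have e : 4 * K / d ^ 4 * S x + 2 * K * C / d ^ 4 * (x : ℝ)⁻¹ =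
        K * (2 * x) * (2 * x * S x + C) / (d ^ 4 * (x : ℝ) ^ 2) := by
      field_simp
      ring
    rw [e, le_div_iff₀ (by positivity)]
    exact h13
  -- the limit
  have hT : Tendsto (fun x : ℕ => ((x : ℕ) : ℝ)) F atTop :=
    tendsto_natCast_atTop_atTop.mono_left hF
  have hR : Tendsto (fun x : ℕ => 4 * K / d ^ 4 * S x + 2 * K * C / d ^ 4 * (x : ℝ)⁻¹) F
      (nhds (4 * K / d ^ 4 * (∑ z ∈ T, ‖phi z‖ ^ 4) + 2 * K * C / d ^ 4 * 0)) :=
    (hSlim.const_mul _).add ((tendsto_inv_atTop_zero.comp hT).const_mul _)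
  have hfin := le_of_tendsto_of_tendsto (hSlim.pow 2) hR hineq
  rw [mul_zero, add_zero] at hfin
  have hP0 : 0 ≤ ∑ z ∈ T, ‖phi z‖ ^ 4 := sum_nonneg fun _ _ => by positivity
  rcases hP0.eq_or_lt with h0 | h0
  · rw [← h0]
    -- `K ≥ 0`
    obtain ⟨x, h1, h2, h3⟩ := (hA.and (((ht.eventually hK).filter_mono hF).and
      ((eventually_ge_atTop 1).filter_mono hF))).exists
    have hx0 : (0 : ℝ) < x := by exact_mod_cast (by omega : 0 < x)
    have h4 : 0 ≤ K * ((2 * x : ℕ) : ℝ) :=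
      le_trans (sum_nonneg fun n _ => sq_nonneg _) h2
    have hK0 : 0 ≤ K := by
      by_contra hneg
      have : K * ((2 * x : ℕ) : ℝ) < 0 :=
        mul_neg_of_neg_of_pos (not_le.1 hneg) (by push_cast; linarith)
      linarith
    positivity
  · have : (∑ z ∈ T, ‖phi z‖ ^ 4) * (∑ z ∈ T, ‖phi z‖ ^ 4) ≤
        4 * K / d ^ 4 * (∑ z ∈ T, ‖phi z‖ ^ 4) := by
      rw [← sq]
      exact hfin
    exact le_of_mul_le_mul_right this h0

end Pool.Agent.Helper80.SP
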