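import Pool.Agent.Helper80.SP.Union
import Pool.Agent.Helper80.SP.Nec
import Pool.Agent.Helper38.SP.PD

/-!
# Spectrum theorem: the assembly
-/

set_option autoImplicit false

open Finset Filter
open scoped ComplexConjugate ComplexOrder

namespace Pool.Agent.Helper80.SP

open Pool.Agent.Helper25.RC (below mem_below)
open Pool.Agent.Helper38.SP (PosDef)

/-- helper38's one scale theorem, as a proposition -/
def OneScale : Prop :=
  ∀ (Z : Subgroup Circle) (φ : Circle → ℂ), φ 1 = 1 → PosDef (Z : Set Circle) φ → ∀ M : ℝ,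
    (∀ T : Finset Circle, (∀ z ∈ T, z ∈ Z) → ∑ z ∈ T, ‖φ z‖ ^ 4 ≤ M) →
    ∃ D : ℝ, ∀ F : Finset Circle, (∀ z ∈ F, z ∈ Z) → ∀ s : ℕ, (s = 0 → F = ∅) →
      ∀ᶠ j : ℕ in atTop, ∃ B : Finset ℕ, GoodS φ F D s j B

/-- sufficiency -/
theorem suffS (hOS : OneScale) (Z : Subgroup Circle) (hZ : (Z : Set Circle).Countable)
    (φ : Circle → ℂ) (h1 : φ 1 = 1) (hpd : PosDef (Z : Set Circle) φ)
    (hs : Summable fun z : Z => ‖φ z‖ ^ 4) :
    ∃ (A : Set ℕ) (c C : ℝ), 0 < c ∧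
      (∀ x : ℕ, 2 ≤ x → c * √x ≤ #(below A x)) ∧
      (∀ x : ℕ, ∑ n ∈ range x, (Pool.Agent.Helper25.RC.rep A n : ℝ) ^ 2 ≤ C * x) ∧
      ∀ z ∈ Z, Tendsto (fun x : ℕ => mean A x z) atTop (nhds (φ z)) := by
  classical
  obtain ⟨zs, hzs⟩ := hZ.exists_eq_range ⟨1, Z.one_mem⟩
  obtain ⟨D, hD⟩ := hOS Z φ h1 hpd (∑' z : Z, ‖φ z‖ ^ 4) fun T hT => by
    have h2 := hs.sum_le_tsum (T.subtype fun z => z ∈ Z) fun _ _ => by positivity
    refine le_trans (le_of_eq ?_) h2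
    rw [sum_subtype_of_mem (fun z => ‖φ z‖ ^ 4) hT]
  obtain ⟨A, c, C, hc, h2, h3, h4⟩ := unionS φ D zs fun s => hD ((range s).image zs)
    (fun z hz => by
      rw [mem_image] at hz
      obtain ⟨i, _, rfl⟩ := hz
      have : zs i ∈ (Z : Set Circle) := by rw [hzs]; exact ⟨i, rfl⟩
      exact this) s (fun h0 => by rw [h0, range_zero, image_empty])
  refine ⟨A, c, C, hc, h2, h3, fun z hz => ?_⟩
  have hz' : z ∈ Set.range zs := by rw [← hzs]; exact hz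
  obtain ⟨i, rfl⟩ := hz'
  exact h4 i

/-- the bound of the sum -/
theorem sum_bound (Z : Subgroup Circle) (F : Filter ℕ) [F.NeBot] (hF : F ≤ atTop) (A : Set ℕ)
    (K d : ℝ) (hd : 0 < d) (hA : ∀ᶠ x : ℕ in F, d * √x ≤ #(below A x))
    (hK : ∀ᶠ x : ℕ in atTop, ∑ n ∈ range x, (Pool.Agent.Helper25.RC.rep A n : ℝ) ^ 2 ≤ K * x)
    (φ : Circle → ℂ) (hlim : ∀ z ∈ Z, Tendsto (fun x : ℕ => mean A x z) F (nhds (φ z)))
    (T : Finset Circle) (hT : ∀ z ∈ T, z ∈ Z) : ∑ z ∈ T, ‖φ z‖ ^ 4 ≤ 4 * K / d ^ 4 := by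
  -- `d' < d` arbitrary
  have h1 : ∀ d' : ℝ, 0 < d' → d' < d → ∑ z ∈ T, ‖φ z‖ ^ 4 ≤ 4 * K / d' ^ 4 := by
    intro d' hd' hdd
    refine necS F hF A K d' hd' ?_ hK T φ fun z hz => hlim z (hT z hz)
    filter_upwards [hA, (eventually_ge_atTop 1).filter_mono hF] with x hx hx1
    have hx0 : 0 < √(x : ℝ) := Real.sqrt_pos.2 (by exact_mod_cast (by omega : 0 < x))
    have := mul_lt_mul_of_pos_right hdd hx0
    linarith
  have h2 : Tendsto (fun d' : ℝ => 4 * K / d' ^ 4) (nhdsWithin d (Set.Iio d))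
      (nhds (4 * K / d ^ 4)) := by
    refine Tendsto.mono_left ?_ nhdsWithin_le_nhds
    exact tendsto_const_nhds.div ((continuous_pow 4).tendsto d) (by positivity)
  refine ge_of_tendsto h2 ?_
  have h3 : ∀ᶠ d' in nhdsWithin d (Set.Iio d), 0 < d' :=
    (eventually_gt_nhds hd).filter_mono nhdsWithin_le_nhds
  filter_upwards [h3, self_mem_nhdsWithin] with d' a1 a2
  exact h1 d' a1 a2

/-- necessity -/
theorem necS' (Z : Subgroup Circle) (F : Filter ℕ) [F.NeBot] (hF : F ≤ atTop) (A : Set ℕ)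
    (K d : ℝ) (hd : 0 < d) (hA : ∀ᶠ x : ℕ in F, d * √x ≤ #(below A x))
    (hK : ∀ᶠ x : ℕ in atTop, ∑ n ∈ range x, (Pool.Agent.Helper25.RC.rep A n : ℝ) ^ 2 ≤ K * x)
    (φ : Circle → ℂ) (hlim : ∀ z ∈ Z, Tendsto (fun x : ℕ => mean A x z) F (nhds (φ z))) :
    φ 1 = 1 ∧ PosDef (Z : Set Circle) φ ∧ (Summable fun z : Z => ‖φ z‖ ^ 4) ∧
      ∑' z : Z, ‖φ z‖ ^ 4 ≤ 4 * K / d ^ 4 := by
  classical
  have hb := sum_bound Z F hF A K d hd hA hK φ hlim
  have hb' : ∀ s : Finset Z, ∑ z ∈ s, ‖φ z‖ ^ 4 ≤ 4 * K / d ^ 4 := by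
    intro s
    have h1 := hb (s.map ⟨Subtype.val, Subtype.val_injective⟩) fun z hz => by
      rw [Finset.mem_map] at hz
      obtain ⟨w, _, rfl⟩ := hz
      exact w.2
    rwa [sum_map] at h1
  have hsum : Summable fun z : Z => ‖φ z‖ ^ 4 :=
    summable_of_sum_le (fun _ => by positivity) hb'
  refine ⟨?_, ?_, hsum, hsum.tsum_le_of_sum_le hb'⟩
  · refine tendsto_nhds_unique (hlim 1 Z.one_mem) ?_
    refine Tendsto.congr' ?_ tendsto_const_nhds
    filter_upwards [hA, (eventually_ge_atTop 1).filter_mono hF] with x hx hx1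
    have hx0 : 0 < √(x : ℝ) := Real.sqrt_pos.2 (by exact_mod_cast (by omega : 0 < x))
    have h2 : (0 : ℝ) < #(below A x) := lt_of_lt_of_le (by positivity) hx
    exact (mean_one A x (by exact_mod_cast h2)).symm
  · intro S hS c
    have h1 := limit_pos A φ S c (fun s : Circle => s) (F := F) fun i hi j hj =>
      hlim (i / j) (Z.div_mem (hS i hi) (hS j hj))
    rw [Complex.le_def]
    exact ⟨h1.1, h1.2.symm⟩

end Pool.Agent.Helper80.SP
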