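import Pool.Agent.Helper80.SP.S1

/-! The double curves of a union of smooth sheets. -/

namespace Pool.Agent.Helper80.SP

open MvPowerSeries Pool.Agent.Helper38.EQ Pool.Agent.Helper38.GP Pool.Agent.Helper85.SB

/-- The data of the first projection. -/
structure Data {d m : ℕ} {K : Type} [Field K] (e : Fin m → MvPowerSeries (Fin (d + 3)) K)
    (I : Ideal (MvPowerSeries (Fin (d + 3)) K)) where
  p : Proj (d + 2) K
  s : ∀ i, Sec p (e i)
  g : R1 (d + 2) K
  k₀ : ℕ
  dvd : ∀ i j, i ≠ j → (s i).r - (s j).r ∣ g ^ k₀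
  ex : ∀ (δ : R1 (d + 2) K →ₐ[K] WS d K), δ g = 0 → ∃ i j, j ≠ i ∧ δ (s i).r - δ (s j).r = 0
  mem : ∏ i, e i ∈ I
  τ : R1 (d + 2) K
  τ_mem : τ ∈ IsLocalRing.maximalIdeal (R1 (d + 2) K)
  τI : PowerSeries.X - PowerSeries.C τ ∈ Ideal.map p.σ I
  F : Fam g (p.img I)

namespace Data

variable {d m : ℕ} {K : Type} [Field K] {e : Fin m → MvPowerSeries (Fin (d + 3)) K}
  {I : Ideal (MvPowerSeries (Fin (d + 3)) K)} (D : Data e I)

/-- The third coordinate. -/
noncomputable def z : MvPowerSeries (Fin (d + 3)) K :=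
  D.p.σ.symm (PowerSeries.X - PowerSeries.C D.τ)

/-- The inclusion of the base. -/
noncomputable def up (a : R1 (d + 2) K) : MvPowerSeries (Fin (d + 3)) K :=
  D.p.σ.symm (PowerSeries.C a)

theorem z_mem : D.z ∈ I := by
  have h := D.τI
  have h1 : PowerSeries.X - PowerSeries.C D.τ = D.p.σ D.z := by
    rw [z, AlgEquiv.apply_symm_apply]
  rw [h1, mem_map_algEquiv] at h
  exact h

theorem up_mem {a : R1 (d + 2) K} : D.up a ∈ I ↔ a ∈ D.p.img I := by
  have h1 : a ∈ D.p.img I ↔ PowerSeries.C a ∈ Ideal.map D.p.σ I := Iff.rfl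
  have h2 : (PowerSeries.C a : PowerSeries (R1 (d + 2) K)) = D.p.σ (D.up a) := by
    rw [up, AlgEquiv.apply_symm_apply]
  rw [h1, h2, mem_map_algEquiv]

/-- The coordinates of the normal space. -/
noncomputable def ξ : Fin 3 → MvPowerSeries (Fin (d + 3)) K :=
  ![D.up D.F.x, D.up D.F.y, D.z]

theorem ξ_mem (k : Fin 3) : D.ξ k ∈ I := by
  fin_cases k
  · exact D.up_mem.2 (Fam_x D.F)
  · exact D.up_mem.2 (Fam_y D.F)
  · exact D.z_mem

theorem hI : I = Ideal.span (Set.range D.ξ) := by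
  refine le_antisymm (fun h hh => ?_) ?_
  · obtain ⟨s, hs⟩ := exists_sec_of_root D.p D.τ_mem
    have hz : D.z ∈ Ideal.span (Set.range D.ξ) := Ideal.subset_span ⟨2, rfl⟩
    refine s.mem_of_pull_mem (I := Ideal.span (Set.range D.ξ)) hz ?_
    have h1 : s.pull h ∈ D.p.img I := s.pull_mem_img D.z_mem hh
    have h2 : Ideal.span {D.F.x, D.F.y} ≤ D.p.img (Ideal.span (Set.range D.ξ)) := by
      rw [Ideal.span_le]
      have h3 : ∀ a : R1 (d + 2) K, D.up a ∈ Ideal.span (Set.range D.ξ) →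
          a ∈ D.p.img (Ideal.span (Set.range D.ξ)) := by
        intro a ha
        have h1 : a ∈ D.p.img (Ideal.span (Set.range D.ξ)) ↔
          PowerSeries.C a ∈ Ideal.map D.p.σ (Ideal.span (Set.range D.ξ)) := Iff.rfl
        have h2 : (PowerSeries.C a : PowerSeries (R1 (d + 2) K)) = D.p.σ (D.up a) := by
          rw [up, AlgEquiv.apply_symm_apply]
        rw [h1, h2, mem_map_algEquiv]
        exact ha
      rintro a (rfl | ha)
      · exact h3 _ (Ideal.subset_span ⟨0, rfl⟩)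
      · rw [Set.mem_singleton_iff] at ha
        rw [ha]
        exact h3 _ (Ideal.subset_span ⟨1, rfl⟩)
    exact h2 (D.F.hI.le h1)
  · rw [Ideal.span_le]
    rintro _ ⟨k, rfl⟩
    exact D.ξ_mem k

/-- The other coordinates. -/
noncomputable def t (j : Fin d) : MvPowerSeries (Fin (d + 3)) K := D.up (D.F.t j)

theorem li : LinIndep (Sum.elim D.ξ D.t) := by
  have hz : D.z ∈ IsLocalRing.maximalIdeal (MvPowerSeries (Fin (d + 3)) K) := by
    obtain ⟨s, hs⟩ := exists_sec_of_root D.p D.τ_mem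
    by_contra hcon
    have h1 : IsUnit D.z := by
      rwa [IsLocalRing.mem_maximalIdeal, mem_nonunits_iff, not_not] at hcon
    have h2 : s.pull D.z = 0 := s.pull_self
    exact (h1.map s.pull).ne_zero h2
  have htz : D.p.tr D.z ≠ 0 := by
    unfold z Proj.tr
    rw [AlgEquiv.apply_symm_apply, map_sub, PowerSeries.coeff_one_X, PowerSeries.coeff_C,
      if_neg one_ne_zero, sub_zero, map_one]
    exact one_ne_zero
  have h1 := linIndep_lift D.p D.F.li hz htz
  let r : Fin 3 ⊕ Fin d → Option (Fin 2 ⊕ Fin d) :=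
    Sum.elim ![some (Sum.inl 0), some (Sum.inl 1), none] fun j => some (Sum.inr j)
  have hr : Function.Injective r := by
    intro a b hab
    rcases a with a | a <;> rcases b with b | b
    · fin_cases a <;> fin_cases b <;> first | rfl | (exact absurd hab (by simp [r]))
    · fin_cases a <;> exact absurd hab (by simp [r])
    · fin_cases b <;> exact absurd hab (by simp [r])
    · have : a = b := by simpa [r] using hab
      rw [this]
  have h2 := Pool.Agent.Helper38.ED.LI.comp h1 r hr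
  have h3 : Sum.elim D.ξ D.t = fun i => (fun o : Option (Fin 2 ⊕ Fin d) =>
      o.elim D.z fun i => D.p.σ.symm (PowerSeries.C (Sum.elim ![D.F.x, D.F.y] D.F.t i))) (r i) := by
    funext i
    rcases i with k | j
    · fin_cases k <;> rfl
    · rfl
  rw [h3]
  exact h2

/-- The arcs. -/
noncomputable def a (l : Fin D.F.N) (i : Fin m) : MvPowerSeries (Fin (d + 3)) K →ₐ[K] WS d K :=
  arc (D.F.G l) (D.s i)

theorem a_up (l : Fin D.F.N) (i : Fin m) (b : R1 (d + 2) K) : D.a l i (D.up b) = D.F.G l b :=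
  arc_C _ _ _

theorem a_z (l : Fin D.F.N) (i : Fin m) :
    D.a l i D.z = D.F.G l (D.s i).r - D.F.G l D.τ := by
  have h : D.z = D.p.σ.symm PowerSeries.X - D.up D.τ := by
    rw [z, up, map_sub]
  rw [h, map_sub, a_up]
  congr 1
  exact arc_X _ _

theorem pw (l : Fin D.F.N) (i j : Fin m) : Pw (D.F.G l (D.s i).r - D.F.G l (D.s j).r) := by
  by_cases h : i = j
  · rw [h, sub_self]
    exact Or.inl rfl
  · rw [← map_sub]
    exact D.F.dich _ _ (D.dvd i j h) l

theorem sub_mem (l : Fin D.F.N) (i j : Fin m) :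
    PowerSeries.X ∣ D.F.G l (D.s i).r - D.F.G l (D.s j).r := by
  refine (D.pw l i j).dvd ?_
  rw [← map_sub]
  exact hom_mem_W _ (Ideal.sub_mem _ (D.s i).r_mem (D.s j).r_mem)

/-- All the roots are congruent to `τ`. -/
theorem r_mem (i : Fin m) : D.τ - (D.s i).r ∈ D.p.img I := by
  obtain ⟨s, hs⟩ := exists_sec_of_root D.p D.τ_mem
  have l : Fin D.F.N := ⟨0, lt_of_lt_of_le (by norm_num) D.F.two⟩
  have h1 : s.pull (∏ i, e i) ∈ D.p.img I := s.pull_mem_img D.z_mem D.mem
  have hM : (PowerSeries.X : WS d K) ∣ PowerSeries.X ^ D.F.M :=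
    dvd_pow_self _ (Nat.one_le_iff_ne_zero.1 D.F.hM)
  have h2 := hM.trans (Fam_dvd D.F l h1)
  rw [map_prod, map_prod] at h2
  obtain ⟨i₀, -, h3⟩ := (Prime.dvd_finsetProd_iff PowerSeries.X_prime _).1 h2
  have h4 : PowerSeries.X ∣ D.F.G l (D.τ - (D.s i₀).r) := by
    have h5 := (s.assoc (D.s i₀)).map (D.F.G l)
    rw [hs] at h5
    exact h3.trans h5.dvd
  apply Fam_mem D.F l
  have h5 : D.F.G l (D.τ - (D.s i).r) = D.F.G l (D.τ - (D.s i₀).r) +
      (D.F.G l (D.s i₀).r - D.F.G l (D.s i).r) := by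
    rw [map_sub, map_sub]
    ring
  rw [h5]
  exact dvd_add h4 (D.sub_mem l i₀ i)

include D in
theorem e_mem (i : Fin m) : e i ∈ I := by
  obtain ⟨s, hs⟩ := exists_sec_of_root D.p D.τ_mem
  refine s.mem_of_pull_mem D.z_mem ?_
  rw [s.pull_eq (D.s i), hs]
  exact Ideal.mul_mem_left _ _ (D.r_mem i)

theorem X_dvd_z (l : Fin D.F.N) (i : Fin m) : PowerSeries.X ^ D.F.M ∣ D.a l i D.z := by
  have h := Fam_dvd D.F l (D.r_mem i)
  rw [map_sub] at h
  rw [a_z, ← neg_sub]
  exact (dvd_neg).2 h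

/-- The differences of two arcs. -/
theorem exists_diff (l l' : Fin D.F.N) (i i' : Fin m) (hne : D.a l i ≠ D.a l' i') :
    ∃ (μ : ℕ) (w : Fin 3 → WS d K), D.F.M ≤ μ ∧
      (∀ k, D.a l i (D.ξ k) - D.a l' i' (D.ξ k) = PowerSeries.X ^ μ * w k) ∧ w 0 = 0 ∧
      (IsUnit (w 1) ∨ IsUnit (w 2)) := by
  obtain ⟨μ, h1, h2⟩ := (arc_sub (D.s i) (D.s i') (Fam_sub D.F l l') (Fam_pw D.F l l')
    (D.pw l i i')).resolve_left hne
  have e0 : D.a l i (D.ξ 0) - D.a l' i' (D.ξ 0) = 0 := by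
    change D.a l i (D.up D.F.x) - D.a l' i' (D.up D.F.x) = 0
    rw [a_up, a_up, D.F.Gx, D.F.Gx, sub_self]
  have e1 : D.a l i (D.ξ 1) - D.a l' i' (D.ξ 1) = D.F.G l D.F.y - D.F.G l' D.F.y := by
    change D.a l i (D.up D.F.y) - D.a l' i' (D.up D.F.y) = _
    rw [a_up, a_up]
  have e2 : D.a l i (D.ξ 2) - D.a l' i' (D.ξ 2) = (D.F.G l (D.s i).r - D.F.G l' (D.s i').r) -
      (D.F.G l D.τ - D.F.G l' D.τ) := by
    change D.a l i D.z - D.a l' i' D.z = _
    rw [a_z, a_z]
    ring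
  have hdvd : ∀ k, PowerSeries.X ^ μ ∣ D.a l i (D.ξ k) - D.a l' i' (D.ξ k) := fun k => h1 (D.ξ k)
  choose w hw using hdvd
  have hX : (PowerSeries.X ^ μ : WS d K) ≠ 0 := pow_ne_zero _ PowerSeries.X_ne_zero
  have hunit : IsUnit (w 1) ∨ IsUnit (w 2) := by
    have key : ∀ x : WS d K, Associated (PowerSeries.X ^ μ * x) (PowerSeries.X ^ μ) →
        IsUnit x := by
      intro x hx
      have h3 : Associated (PowerSeries.X ^ μ * x) (PowerSeries.X ^ μ * 1) := by
        rwa [mul_one]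
      exact associated_one_iff_isUnit.1 (h3.of_mul_left (Associated.refl _) hX)
    rcases h2 with h2 | ⟨h2, h3⟩
    · left
      apply key
      rw [← hw, e1]
      exact h2
    · right
      apply key
      rw [← hw, e2]
      obtain ⟨c, hc⟩ := h2 D.τ
      obtain ⟨u, hu⟩ := h3.symm
      have h4 : D.F.G l (D.s i).r - D.F.G l' (D.s i').r = PowerSeries.X ^ μ * (u : WS d K) :=
        hu.symm
      have h5 : D.F.G l D.τ - D.F.G l' D.τ = PowerSeries.X ^ (μ + 1) * c := hc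
      rw [h4, h5]
      have e4 : (PowerSeries.X ^ μ * (u : WS d K) - PowerSeries.X ^ (μ + 1) * c : WS d K) =
          ((u : WS d K) - PowerSeries.X * c) * PowerSeries.X ^ μ := by ring
      rw [e4]
      refine associated_unit_mul_left _ _ ?_
      rw [PowerSeries.isUnit_iff_constantCoeff, map_sub, map_mul,
        PowerSeries.constantCoeff_X, zero_mul, sub_zero]
      exact PowerSeries.isUnit_iff_constantCoeff.1 u.isUnit
  have hMk : ∀ k, PowerSeries.X ^ D.F.M ∣ D.a l i (D.ξ k) - D.a l' i' (D.ξ k) := by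
    intro k
    fin_cases k
    · exact e0 ▸ dvd_zero _
    · change _ ∣ D.a l i (D.up D.F.y) - D.a l' i' (D.up D.F.y)
      rw [a_up, a_up, D.F.Gy, D.F.Gy]
      exact dvd_sub (dvd_mul_right _ _) (dvd_mul_right _ _)
    · exact dvd_sub (D.X_dvd_z l i) (D.X_dvd_z l' i')
  have hMμ : D.F.M ≤ μ := by
    have key : ∀ k, IsUnit (w k) → D.F.M ≤ μ := by
      intro k hk
      have h5 := hMk k
      rw [hw k] at h5
      have h6 : (PowerSeries.X ^ D.F.M : WS d K) ∣ PowerSeries.X ^ μ :=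
        (hk.dvd_mul_right).1 h5
      exact (pow_dvd_pow_iff PowerSeries.X_ne_zero PowerSeries.X_prime.not_isUnit).1 h6
    rcases hunit with h | h
    · exact key 1 h
    · exact key 2 h
  refine ⟨μ, w, hMμ, hw, ?_, hunit⟩
  have h5 := hw 0
  rw [e0] at h5
  exact (mul_eq_zero.1 h5.symm).resolve_left hX

end Data

end Pool.Agent.Helper80.SP
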